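import Pool.Agent.H15.Rud.Defs

/-!
# The automatic second digit

For a prime `l` dividing `x - a` with `200 x ≤ l^2` the second digit of `n` in base `l` is
determined by `l` modulo `120`.
-/

namespace Pool.Agent.H15.Rud

/-- Size estimates. -/
theorem size_bounds (l w a1 e m q i : ℤ) (hl : 4000 + 1000 * q < l) (hq : 0 ≤ q) (hw1 : 1 ≤ w)
    (hwl : 199 * w ≤ l) (h1 : -49 ≤ a1) (h2 : a1 ≤ 143) (he2 : e ≤ 112)
    (he1 : 61 ≤ e ∨ (e = 60 ∧ 0 < a1)) (hm : a1 * w + e * l = 120 * m) (hi0 : 0 ≤ i)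
    (hi2 : i ≤ 2) : l ^ 2 + 6 ≤ 2 * (i + l * m) ∧ i + l * m + q < l ^ 2 := by
  have hl0 : 0 < l := by linarith
  have hW1 : l ≤ w * l := by nlinarith
  have hW2 : 199 * (w * l) ≤ l ^ 2 := by nlinarith
  have hL2 : 4000 * l ≤ l ^ 2 := by nlinarith
  have hql : 1000 * q ≤ l := by linarith
  have hm1 : 120 * (l * m) = a1 * (w * l) + e * l ^ 2 := by
    have : 120 * (l * m) = l * (120 * m) := by ring
    rw [this, ← hm]; ring
  have hW0 : 0 ≤ w * l := by linarith
  have hL0 : 0 ≤ l ^ 2 := by positivity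
  constructor
  · rcases he1 with h | ⟨h, h'⟩
    · have h3 : -49 * (w * l) ≤ a1 * (w * l) := mul_le_mul_of_nonneg_right h1 hW0
      have h4 : 61 * l ^ 2 ≤ e * l ^ 2 := mul_le_mul_of_nonneg_right h hL0
      linarith
    · have h3 : 1 * (w * l) ≤ a1 * (w * l) := mul_le_mul_of_nonneg_right (by omega) hW0
      rw [h] at hm1
      linarith
  · have h3 : a1 * (w * l) ≤ 143 * (w * l) := mul_le_mul_of_nonneg_right h2 hW0
    have h4 : e * l ^ 2 ≤ 112 * l ^ 2 := mul_le_mul_of_nonneg_right he2 hL0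
    linarith

/-- The general computation. -/
theorem good_two_of (q i l n : ℕ) (x a a1 e k : ℤ) (hl : l.Prime) (hL : 1000 + 1000 * (q + 3) < l)
    (hx : x % 120 = 83) (hn : 120 * (n : ℤ) = x ^ 3 - 49 * x + 120) (hx0 : 0 < x)
    (hxl : 200 * x ≤ (l : ℤ) ^ 2) (ha : a.natAbs ≤ 8) (hal : (l : ℤ) ∣ x - a) (hi : i ≤ 2)
    (hai : a ^ 3 - 49 * a + 120 = 120 * i) (ha1 : a1 = 3 * a ^ 2 - 49)
    (hk : (120 : ℤ) ∣ (l : ℤ) ^ 2 - k) (hk1 : (120 : ℤ) ∣ k * k - 1)
    (he : (120 : ℤ) ∣ a1 * k * (83 - a) + e) (he2 : e ≤ 112) (he1 : 61 ≤ e ∨ (e = 60 ∧ 0 < a1)) :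
    Good q l 2 n := by
  obtain ⟨w, hw⟩ := hal
  have hl0 : (0 : ℤ) < l := by exact_mod_cast hl.pos
  have hLz : (4000 : ℤ) + 1000 * q < l := by exact_mod_cast (by omega : 4000 + 1000 * q < l)
  have ha' : -8 ≤ a ∧ a ≤ 8 := by omega
  have hq0 : (0 : ℤ) ≤ q := by positivity
  -- w is positive
  have hw1 : 1 ≤ w := by
    by_contra hc
    have hw0 : w ≤ 0 := by omega
    rcases lt_or_eq_of_le hw0 with h | h
    · have : (l : ℤ) * w ≤ l * (-1) := mul_le_mul_of_nonneg_left (by omega) hl0.le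
      omega
    · rw [h, mul_zero] at hw
      omega
  have hwl : 199 * w ≤ l := by
    have h1 : 200 * ((l : ℤ) * w) ≤ (l : ℤ) ^ 2 + 1600 := by
      rw [← hw]; linarith
    by_contra hc
    have h2 : (l : ℤ) * (l + 1) ≤ l * (199 * w) :=
      mul_le_mul_of_nonneg_left (by omega) hl0.le
    have h3 : (4000 : ℤ) * l ≤ l * l := mul_le_mul_of_nonneg_right (by linarith) hl0.le
    have h4 : (4000 : ℤ) ≤ l := by linarith
    have h5 : (l : ℤ) * (199 * w) = 199 * (l * w) := by ring
    have h6 : (l : ℤ) * (l + 1) = l * l + l := by ring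
    have h7 : (l : ℤ) ^ 2 = l * l := by ring
    rw [h5, h6] at h2
    rw [h7] at h1
    linarith
  have ha1b : -49 ≤ a1 ∧ a1 ≤ 143 := by
    have h64 : a ^ 2 ≤ 64 := by nlinarith [ha'.1, ha'.2]
    have h0 : 0 ≤ a ^ 2 := sq_nonneg a
    rw [ha1]; constructor <;> linarith
  -- the congruence for w
  have hwk : (120 : ℤ) ∣ a1 * w + e * l := by
    have hx' : (120 : ℤ) ∣ x - 83 := by omega
    obtain ⟨u, hu⟩ := hx'
    obtain ⟨v, hv⟩ := hk
    obtain ⟨s, hs⟩ := hk1
    obtain ⟨r, hr⟩ := he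
    -- w = w k^2 - 120 s w ; w k = w l^2 - 120 v w = (x - a) l - 120 v w
    have e1 : w = w * (k * k) - 120 * s * w := by
      have : k * k = 1 + 120 * s := by linarith
      rw [this]; ring
    have e2 : w * k = (x - a) * l - 120 * v * w := by
      have : k = (l : ℤ) ^ 2 - 120 * v := by linarith
      rw [this, hw]; ring
    have e3 : x = 83 + 120 * u := by linarith
    have e4 : e = 120 * r - a1 * k * (83 - a) := by linarith
    have e5 : w = ((x - a) * l - 120 * v * w) * k - 120 * s * w := by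
      rw [← e2]; linarith [e1]
    refine ⟨a1 * u * l * k - a1 * v * w * k - a1 * s * w + r * l, ?_⟩
    have : a1 * w = a1 * (((x - a) * l - 120 * v * w) * k - 120 * s * w) := by
      rw [← e5]
    rw [this, e4, e3]; ring
  obtain ⟨m, hm⟩ := hwk
  -- n = i + l m mod l^2
  have hcop : IsCoprime ((l : ℤ) ^ 2) 120 := by
    have h1 : Nat.Coprime l 120 := by
      rw [Nat.Prime.coprime_iff_not_dvd hl]
      intro h
      have := Nat.le_of_dvd (by norm_num) h
      omega
    have : Nat.Coprime (l ^ 2) 120 := Nat.Coprime.pow_left 2 h1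
    exact_mod_cast Nat.isCoprime_iff_coprime.mpr this
  have hx1 : x = a + l * w := by linarith
  have hN : 120 * ((n : ℤ) - i - l * m) = (l : ℤ) ^ 2 * (3 * a * w ^ 2 + w ^ 3 * l - e) := by
    have h1 : 120 * ((n : ℤ) - i - l * m) = x ^ 3 - 49 * x + 120 - 120 * i - l * (120 * m) := by
      rw [← hn]; ring
    rw [h1, ← hm, ← hai, hx1, ha1]; ring
  have hdvd : (l : ℤ) ^ 2 ∣ (n : ℤ) - i - l * m := by
    apply hcop.dvd_of_dvd_mul_left
    exact ⟨_, hN⟩
  have hi' : (i : ℤ) ≤ 2 := by exact_mod_cast hi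
  have hi0 : (0 : ℤ) ≤ i := by positivity
  obtain ⟨hlow, hup⟩ := size_bounds l w a1 e m q i hLz hq0 hw1 hwl ha1b.1 ha1b.2 he2 he1 hm hi0 hi'
  have hmod : ((n % l ^ 2 : ℕ) : ℤ) = i + l * m := by
    push_cast
    obtain ⟨t, ht⟩ := hdvd
    have : (n : ℤ) = (i + l * m) + (l : ℤ) ^ 2 * t := by linarith
    rw [this, Int.add_mul_emod_self_left]
    have hl2 : (0 : ℤ) ≤ (l : ℤ) ^ 2 := by positivity
    apply Int.emod_eq_of_lt
    · linarith
    · linarith
  constructor
  · have : ((l ^ 2 + 6 : ℕ) : ℤ) ≤ ((2 * (n % l ^ 2) : ℕ) : ℤ) := by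
      push_cast at hmod ⊢
      rw [hmod]; linarith
    exact_mod_cast this
  · have : ((n % l ^ 2 + q : ℕ) : ℤ) < ((l ^ 2 : ℕ) : ℤ) := by
      push_cast at hmod ⊢
      rw [hmod]; linarith
    exact_mod_cast this

/-- Squares of units modulo `120`. -/
theorem sq_mod (l : ℕ) (hl : l.Prime) (h : 5 < l) :
    ((l % 5 = 1 ∨ l % 5 = 4) ∧ (120 : ℤ) ∣ (l : ℤ) ^ 2 - 1) ∨
    ((l % 5 = 2 ∨ l % 5 = 3) ∧ (120 : ℤ) ∣ (l : ℤ) ^ 2 - 49) := by
  have h2 : l % 2 ≠ 0 := fun hc => by
    have := (Nat.prime_dvd_prime_iff_eq Nat.prime_two hl).1 (Nat.dvd_of_mod_eq_zero hc); omega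
  have h3 : l % 3 ≠ 0 := fun hc => by
    have := (Nat.prime_dvd_prime_iff_eq Nat.prime_three hl).1 (Nat.dvd_of_mod_eq_zero hc); omega
  have h5 : l % 5 ≠ 0 := fun hc => by
    have := (Nat.prime_dvd_prime_iff_eq Nat.prime_five hl).1 (Nat.dvd_of_mod_eq_zero hc); omega
  have key : ∀ r : ℕ, r < 120 → r % 2 ≠ 0 → r % 3 ≠ 0 → r % 5 ≠ 0 →
      ((r % 5 = 1 ∨ r % 5 = 4) ∧ r ^ 2 % 120 = 1) ∨
      ((r % 5 = 2 ∨ r % 5 = 3) ∧ r ^ 2 % 120 = 49) := by
    intro r hr
    interval_cases r <;> simp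
  have hr := key (l % 120) (Nat.mod_lt _ (by norm_num)) (by omega) (by omega) (by omega)
  have e5 : l % 120 % 5 = l % 5 := by omega
  rw [e5, ← Nat.pow_mod] at hr
  rcases hr with ⟨h, h'⟩ | ⟨h, h'⟩
  · left; refine ⟨h, ?_⟩
    have : ((l ^ 2 % 120 : ℕ) : ℤ) = 1 := by rw [h']; rfl
    push_cast at this; omega
  · right; refine ⟨h, ?_⟩
    have : ((l ^ 2 % 120 : ℕ) : ℤ) = 49 := by rw [h']; rfl
    push_cast at this; omega

/-- **Automatic digit.** -/
theorem auto_good (q l n : ℕ) (x a : ℤ) (hl : l.Prime) (hL : 1000 + 1000 * (q + 3) < l)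
    (hx : x % 120 = 83) (hn : 120 * (n : ℤ) = x ^ 3 - 49 * x + 120) (hx0 : 0 < x)
    (hxl : 200 * x ≤ (l : ℤ) ^ 2) (ha : a ∈ roots) (hal : (l : ℤ) ∣ x - a)
    (h8 : a = -8 → l % 5 = 1 ∨ l % 5 = 4) (h5 : a = 5 → l % 5 = 2 ∨ l % 5 = 3) :
    Good q l 2 n := by
  have hsq := sq_mod l hl (by omega)
  simp only [roots, Finset.mem_insert, Finset.mem_singleton] at ha
  rcases hsq with ⟨hm, hk⟩ | ⟨hm, hk⟩
  · rcases ha with h | h | h | h | h | h | h | h | h
    · exact good_two_of q 0 l n x a 143 67 1 hl hL hx hn hx0 hxl (by omega) hal (by norm_num)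
        (by subst h; norm_num) (by subst h; norm_num) hk (by norm_num) (by subst h; norm_num) (by norm_num) (by norm_num)
    · exact good_two_of q 0 l n x a (-22) 80 1 hl hL hx hn hx0 hxl (by omega) hal (by norm_num)
        (by subst h; norm_num) (by subst h; norm_num) hk (by norm_num) (by subst h; norm_num) (by norm_num) (by norm_num)
    · have := h5 h; omega
    · exact good_two_of q 1 l n x a 98 60 1 hl hL hx hn hx0 hxl (by omega) hal (by norm_num)
        (by subst h; norm_num) (by subst h; norm_num) hk (by norm_num) (by subst h; norm_num) (by norm_num) (by norm_num)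
    · exact good_two_of q 1 l n x a (-49) 107 1 hl hL hx hn hx0 hxl (by omega) hal (by norm_num)
        (by subst h; norm_num) (by subst h; norm_num) hk (by norm_num) (by subst h; norm_num) (by norm_num) (by norm_num)
    · exact good_two_of q 1 l n x a 98 112 1 hl hL hx hn hx0 hxl (by omega) hal (by norm_num)
        (by subst h; norm_num) (by subst h; norm_num) hk (by norm_num) (by subst h; norm_num) (by norm_num) (by norm_num)
    · exact good_two_of q 2 l n x a 26 112 1 hl hL hx hn hx0 hxl (by omega) hal (by norm_num)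
        (by subst h; norm_num) (by subst h; norm_num) hk (by norm_num) (by subst h; norm_num) (by norm_num) (by norm_num)
    · exact good_two_of q 2 l n x a (-22) 92 1 hl hL hx hn hx0 hxl (by omega) hal (by norm_num)
        (by subst h; norm_num) (by subst h; norm_num) hk (by norm_num) (by subst h; norm_num) (by norm_num) (by norm_num)
    · exact good_two_of q 2 l n x a 143 75 1 hl hL hx hn hx0 hxl (by omega) hal (by norm_num)
        (by subst h; norm_num) (by subst h; norm_num) hk (by norm_num) (by subst h; norm_num) (by norm_num) (by norm_num)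
  · rcases ha with h | h | h | h | h | h | h | h | h
    · have := h8 h; omega
    · exact good_two_of q 0 l n x a (-22) 80 49 hl hL hx hn hx0 hxl (by omega) hal (by norm_num)
        (by subst h; norm_num) (by subst h; norm_num) hk (by norm_num) (by subst h; norm_num) (by norm_num) (by norm_num)
    · exact good_two_of q 0 l n x a 26 108 49 hl hL hx hn hx0 hxl (by omega) hal (by norm_num)
        (by subst h; norm_num) (by subst h; norm_num) hk (by norm_num) (by subst h; norm_num) (by norm_num) (by norm_num)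
    · exact good_two_of q 1 l n x a 98 60 49 hl hL hx hn hx0 hxl (by omega) hal (by norm_num)
        (by subst h; norm_num) (by subst h; norm_num) hk (by norm_num) (by subst h; norm_num) (by norm_num) (by norm_num)
    · exact good_two_of q 1 l n x a (-49) 83 49 hl hL hx hn hx0 hxl (by omega) hal (by norm_num)
        (by subst h; norm_num) (by subst h; norm_num) hk (by norm_num) (by subst h; norm_num) (by norm_num) (by norm_num)
    · exact good_two_of q 1 l n x a 98 88 49 hl hL hx hn hx0 hxl (by omega) hal (by norm_num)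
        (by subst h; norm_num) (by subst h; norm_num) hk (by norm_num) (by subst h; norm_num) (by norm_num) (by norm_num)
    · exact good_two_of q 2 l n x a 26 88 49 hl hL hx hn hx0 hxl (by omega) hal (by norm_num)
        (by subst h; norm_num) (by subst h; norm_num) hk (by norm_num) (by subst h; norm_num) (by norm_num) (by norm_num)
    · exact good_two_of q 2 l n x a (-22) 68 49 hl hL hx hn hx0 hxl (by omega) hal (by norm_num)
        (by subst h; norm_num) (by subst h; norm_num) hk (by norm_num) (by subst h; norm_num) (by norm_num) (by norm_num)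
    · exact good_two_of q 2 l n x a 143 75 49 hl hL hx hn hx0 hxl (by omega) hal (by norm_num)
        (by subst h; norm_num) (by subst h; norm_num) hk (by norm_num) (by subst h; norm_num) (by norm_num) (by norm_num)

end Pool.Agent.H15.Rud
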