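import Pool.Agent.H15.Rud.WeylAvg
import Pool.Agent.H34.Rud.Count

/-!
# Counting with a set of digits
-/

namespace Pool.Agent.H15.Rud

open Finset Pool.Agent.H34.Rud

/-- The exponential sums of the digits are small. -/
theorem phase6 (δ : ℝ) (hδ : 0 < δ) (hδ1 : δ ≤ 1) : ∃ (κ : ℝ) (A l0 : ℕ), 0 < κ ∧ 0 < A ∧
    ∀ l : ℕ, l.Prime → l0 ≤ l → ∀ X : ℕ, A * l ≤ X →
    ∀ n0 n1 k2 k3 : ℤ, ¬ (l : ℤ) ∣ n1 → ¬ (l : ℤ) ∣ k3 →
    ∀ J : ℕ, 1 ≤ J → (J = 2 → ¬ (l : ℤ) ∣ k2) →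
    (3 ≤ J → ((l ^ (J - 2) : ℕ) : ℝ) * (1 + Real.log ((l ^ (J - 2) : ℕ) : ℝ)) ≤ κ * (X : ℝ) ^ 2) →
    ∀ H : ℤ, ¬ (l : ℤ) ∣ H →
      ‖∑ y ∈ range X, ee ((H : ℝ) * (NN l n0 n1 k2 k3 y : ℝ) / (l : ℝ) ^ J)‖ ≤ δ * X := by
  obtain ⟨κ, l0, hκ, h⟩ := weyl_avg δ hδ hδ1
  obtain ⟨A, hA⟩ := exists_nat_gt (max (1 / δ) (1 / κ + 1))
  have hA1 : 1 / δ < A := (le_max_left _ _).trans_lt hA
  have hA2 : 1 / κ + 1 < A := (le_max_right _ _).trans_lt hA
  have hA0 : (1 : ℝ) < A := by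
    have : 0 < 1 / κ := by positivity
    linarith
  refine ⟨κ, A, max l0 5, hκ, by exact_mod_cast (lt_trans one_pos hA0), ?_⟩
  intro l hl hll X hX n0 n1 k2 k3 h1 h3 J hJ1 hJ2 hJ3 H hH
  have hl0 : l0 ≤ l := (le_max_left _ _).trans hll
  have hl5 : 5 ≤ l := (le_max_right _ _).trans hll
  have hlp := Nat.prime_iff_prime_int.mp hl
  have hlr : (l : ℝ) ≠ 0 := by exact_mod_cast hl.ne_zero
  have hlr0 : (0 : ℝ) < l := by exact_mod_cast hl.pos
  have hne : ∀ a b : ℤ, ¬ (l : ℤ) ∣ a → ¬ (l : ℤ) ∣ b → ¬ (l : ℤ) ∣ a * b := by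
    intro a b ha hb hab
    exact (hlp.dvd_or_dvd hab).elim ha hb
  have hsmall : ∀ c : ℕ, 0 < c → c < l → ¬ (l : ℤ) ∣ (c : ℤ) := by
    intro c hc hcl hd
    have : l ∣ c := by exact_mod_cast hd
    have := Nat.le_of_dvd hc this
    omega
  have h2l : ¬ (l : ℤ) ∣ 2 := by exact_mod_cast hsmall 2 (by norm_num) (by omega)
  have h6l : ¬ (l : ℤ) ∣ 6 := by
    have e3 : ¬ (l : ℤ) ∣ 3 := by exact_mod_cast hsmall 3 (by norm_num) (by omega)
    exact hne 2 3 h2l e3
  have hXr : (A : ℝ) * l ≤ X := by exact_mod_cast hX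
  -- three cases
  rcases Nat.lt_or_ge J 3 with hJ | hJ
  · rcases Nat.lt_or_ge J 2 with hJ' | hJ'
    · have hJ : J = 1 := by omega
      subst hJ
      have e1 : ∀ y ∈ range X, ee ((H : ℝ) * (NN l n0 n1 k2 k3 y : ℝ) / (l : ℝ) ^ 1) =
          ee ((((H * n1 : ℤ) : ℝ) / (l : ℝ) ^ 1) * y + (H : ℝ) * n0 / l) := by
        intro y _
        apply ee_congr _ _ (H * k2 * y ^ 2 + H * l * k3 * y ^ 3)
        unfold NN
        push_cast
        field_simp
        ring
      rw [Finset.sum_congr rfl e1]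
      have hNI := NI_rat l hl l 1 le_rfl (by simp) _ (hne _ _ hH h1)
      have h4 := hNI 1 (by
        intro hh
        have := Nat.dvd_one.mp hh
        exact hl.one_lt.ne' this)
      rw [Nat.cast_one, mul_one] at h4
      refine (lin_bound l hl.pos _ _ (ph0 _ _) h4 X).trans ?_
      have h5 : 1 < δ * A := by
        rw [div_lt_iff₀ hδ] at hA1; linarith
      nlinarith
    · have hJ : J = 2 := by omega
      subst hJ
      have h2 := hJ2 rfl
      have e1 : ∀ y ∈ range X, ee ((H : ℝ) * (NN l n0 n1 k2 k3 y : ℝ) / (l : ℝ) ^ 2) =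
          ee (((H : ℝ) * k2 / l) * y ^ 2 + ((H : ℝ) * n1 / l ^ 2) * y + (H : ℝ) * n0 / l ^ 2) := by
        intro y _
        apply ee_congr _ _ (H * k3 * y ^ 3)
        unfold NN
        push_cast
        field_simp
        ring
      rw [Finset.sum_congr rfl e1]
      refine h l hl hl0 1 le_rfl X ?_ 1 le_rfl (by norm_num) (2 * (H * k2))
        (hne _ _ h2l (hne _ _ hH h2)) _ ?_
      · rw [pow_one]
        have h6 : 1 + Real.log (l : ℝ) ≤ l := by
          have := Real.log_le_sub_one_of_pos hlr0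
          linarith
        have h7 : (l : ℝ) * (1 + Real.log (l : ℝ)) ≤ l * l := mul_le_mul_of_nonneg_left h6 hlr0.le
        have h8 : 1 < κ * A := by
          have : 1 / κ < A := by linarith
          rw [div_lt_iff₀ hκ] at this; linarith
        have h9 : (l : ℝ) * l ≤ κ * (A * A) * (l * l) := by
          have : 1 ≤ κ * (A * A) := by nlinarith
          nlinarith [mul_pos hlr0 hlr0]
        have h10 : (A : ℝ) * l * (A * l) ≤ X * X :=
          mul_le_mul hXr hXr (by positivity) (by positivity)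
        nlinarith
      · have e2 : (((2 * (H * k2) : ℤ) : ℝ)) / ((l ^ 1 : ℕ) : ℝ) = 2 * ((H : ℝ) * k2 / l) := by
          push_cast
          ring
        rw [e2]
        exact ph1 _ _ _
  · obtain ⟨e, rfl⟩ : ∃ e, J = e + 3 := ⟨J - 3, by omega⟩
    have e1 : ∀ y ∈ range X, ee ((H : ℝ) * (NN l n0 n1 k2 k3 y : ℝ) / (l : ℝ) ^ (e + 3)) =
        ee (((H : ℝ) * k3 / l ^ (e + 1)) * y ^ 3 + ((H : ℝ) * k2 / l ^ (e + 2)) * y ^ 2 +
          ((H : ℝ) * n1 / l ^ (e + 3)) * y + (H : ℝ) * n0 / l ^ (e + 3)) := by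
      intro y _
      congr 1
      unfold NN
      push_cast
      rw [pow_succ, pow_succ, pow_succ]
      field_simp
      ring
    rw [Finset.sum_congr rfl e1]
    have hc := hJ3 (by omega)
    rw [show e + 3 - 2 = e + 1 by omega] at hc
    refine h l hl hl0 (e + 1) (by omega) X hc 2 (by norm_num) le_rfl (6 * (H * k3))
      (hne _ _ h6l (hne _ _ hH h3)) _ ?_
    have e2 : (((6 * (H * k3) : ℤ) : ℝ)) / ((l ^ (e + 1) : ℕ) : ℝ) = 6 * ((H : ℝ) * k3 / l ^ (e + 1)) := by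
      push_cast
      ring
    rw [e2]
    exact ph2 _ _ _ _

theorem sum_unit' (l : ℕ) (hl : 0 < l) (p : ℕ → ℤ) (hp : ∀ j, p j ≠ 0 → ¬ (l : ℤ) ∣ p j) (J : ℕ)
    (h : ∃ j < J, p j ≠ 0) :
    ∃ J' < J, p J' ≠ 0 ∧ ∃ H : ℤ, ¬ (l : ℤ) ∣ H ∧
      ∑ j ∈ range J, (p j : ℝ) / (l : ℝ) ^ (j + 1) = (H : ℝ) / (l : ℝ) ^ (J' + 1) := by
  have hl' : (l : ℝ) ≠ 0 := by exact_mod_cast hl.ne'
  induction J with
  | zero => obtain ⟨j, hj, _⟩ := h; omega
  | succ J ih =>
    by_cases h0 : p J = 0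
    · obtain ⟨j, hj, hj0⟩ := h
      have hjJ : j ≠ J := fun e => hj0 (e ▸ h0)
      obtain ⟨J', h1, h2, H, h3, h4⟩ := ih ⟨j, by omega, hj0⟩
      refine ⟨J', by omega, h2, H, h3, ?_⟩
      rw [Finset.sum_range_succ, h4, h0]
      simp
    · obtain ⟨G, hG⟩ := sum_int l hl p J
      refine ⟨J, by omega, h0, G * l + p J, ?_, ?_⟩
      · intro hd
        have := (Int.dvd_add_right (Dvd.intro_left G rfl)).mp hd
        exact hp J h0 this
      · rw [Finset.sum_range_succ, hG]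
        push_cast
        rw [pow_succ]
        field_simp

/-- All digits of `v` with index in `D` are in the lower half. -/
def BadD (l : ℕ) (D : Finset ℕ) (v : ℤ) : Prop := ∀ j ∈ D, 2 * (v % (l : ℤ) ^ j) ≤ (l : ℤ) ^ j

noncomputable instance (l : ℕ) (D : Finset ℕ) (v : ℤ) : Decidable (BadD l D v) := Classical.dec _

theorem badD_fract (l : ℕ) (hl : 0 < l) (D : Finset ℕ) (v : ℤ) (h : BadD l D v) (j : ℕ)
    (hj : j ∈ D) : Int.fract ((v : ℝ) / (l : ℝ) ^ j) ≤ 1 / 2 := by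
  have h1 := h j hj
  have e1 : ((l : ℝ) ^ j) = ((l ^ j : ℕ) : ℝ) := by push_cast; rfl
  rw [e1, Int.fract_div_intCast_eq_div_intCast_mod]
  have hpos : (0 : ℝ) < ((l ^ j : ℕ) : ℝ) := by exact_mod_cast pow_pos hl _
  rw [div_le_iff₀ hpos]
  have h2 : ((2 * (v % ((l ^ j : ℕ) : ℤ)) : ℤ) : ℝ) ≤ (((l ^ j : ℕ) : ℤ) : ℝ) := by
    have : 2 * (v % ((l ^ j : ℕ) : ℤ)) ≤ ((l ^ j : ℕ) : ℤ) := by
      push_cast
      exact h1
    exact_mod_cast this
  push_cast at h2 ⊢
  linarith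

/-- **Counting by Weyl sums**, for a set of digits. -/
theorem count6 (β ε : ℝ) (hβ : 1 / 2 < β) (hβ1 : β ≤ 1) (hε : 0 < ε) (J0 : ℕ) :
    ∃ (κ : ℝ) (A l0 : ℕ), 0 < κ ∧ 0 < A ∧
    ∀ l : ℕ, l.Prime → l0 ≤ l → ∀ D : Finset ℕ, (∀ j ∈ D, 1 ≤ j ∧ j ≤ J0) → ∀ X : ℕ, A * l ≤ X →
    (∀ j ∈ D, 3 ≤ j →
      ((l ^ (j - 2) : ℕ) : ℝ) * (1 + Real.log ((l ^ (j - 2) : ℕ) : ℝ)) ≤ κ * (X : ℝ) ^ 2) →
    ∀ n0 n1 k2 k3 : ℤ, ¬ (l : ℤ) ∣ n1 → (2 ∈ D → ¬ (l : ℤ) ∣ k2) → ¬ (l : ℤ) ∣ k3 →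
      (((range X).filter (fun y => BadD l D (NN l n0 n1 k2 k3 y))).card : ℝ) ≤
        (β ^ D.card + ε) * X := by
  obtain ⟨s, c, g, hg, hg0, hg1, hs0, hc0⟩ := majorant β hβ
  set C := ∑ h ∈ s, ‖c h‖ with hC
  have hC0 : 0 ≤ C := Finset.sum_nonneg fun _ _ => norm_nonneg _
  set δ := min 1 (ε / (C + 1) ^ J0) with hδ
  have hδ0 : 0 < δ := lt_min one_pos (by positivity)
  have hδ1 : δ ≤ 1 := min_le_left _ _
  have hδC : ∀ k ≤ J0, C ^ k * δ ≤ ε := by
    intro k hk
    have h1 : δ ≤ ε / (C + 1) ^ J0 := min_le_right _ _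
    have h2 : C ^ k ≤ (C + 1) ^ J0 := by
      calc C ^ k ≤ (C + 1) ^ k := pow_le_pow_left₀ hC0 (by linarith) _
        _ ≤ (C + 1) ^ J0 := pow_le_pow_right₀ (by linarith) hk
    have h3 : (0 : ℝ) < (C + 1) ^ J0 := by positivity
    calc C ^ k * δ ≤ (C + 1) ^ J0 * (ε / (C + 1) ^ J0) :=
          mul_le_mul h2 h1 hδ0.le h3.le
      _ = ε := by field_simp
  obtain ⟨κ, A, l0, hκ, hA, hph⟩ := phase6 δ hδ0 hδ1
  refine ⟨κ, A, max l0 (s.sup Int.natAbs + 1), hκ, hA, ?_⟩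
  intro l hl hll D hD X hX hcond n0 n1 k2 k3 h1 h2 h3
  have hl0 : l0 ≤ l := (le_max_left _ _).trans hll
  have hls : s.sup Int.natAbs + 1 ≤ l := (le_max_right _ _).trans hll
  have hDcard : D.card ≤ J0 := by
    have : D ⊆ Finset.Icc 1 J0 := fun j hj => by
      rw [Finset.mem_Icc]; exact hD j hj
    have h4 := Finset.card_le_card this
    rwa [Nat.card_Icc, Nat.add_sub_cancel] at h4
  have hunit : ∀ h ∈ s, h ≠ 0 → ¬ (l : ℤ) ∣ h := by
    intro h hh h0 hd
    have e1 := Int.natAbs_dvd_natAbs.mpr hd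
    rw [Int.natAbs_natCast] at e1
    have e2 := Nat.le_of_dvd (Int.natAbs_pos.mpr h0) e1
    have e3 := Finset.le_sup (f := Int.natAbs) hh
    omega
  set N : ℕ → ℝ := fun y => ((NN l n0 n1 k2 k3 y : ℤ) : ℝ) with hN
  set T : ℝ := ∑ y ∈ range X, ∏ j : {j // j ∈ D}, g (N y / (l : ℝ) ^ (j : ℕ)) with hT
  have hcount : (((range X).filter (fun y => BadD l D (NN l n0 n1 k2 k3 y))).card : ℝ) ≤ T := by
    rw [Finset.card_eq_sum_ones, Nat.cast_sum, Finset.sum_filter]
    refine Finset.sum_le_sum fun y _ => ?_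
    split_ifs with hb
    · push_cast
      have : ∏ j : {j // j ∈ D}, (1 : ℝ) ≤ ∏ j : {j // j ∈ D}, g (N y / (l : ℝ) ^ (j : ℕ)) :=
        Finset.prod_le_prod (fun _ _ => zero_le_one) fun j _ =>
          hg1 _ (badD_fract l hl.pos D _ hb j j.2)
      simpa using this
    · exact Finset.prod_nonneg fun j _ => hg0 _
  -- expansion
  have hexp : (T : ℂ) = ∑ p ∈ Fintype.piFinset (fun _ : {j // j ∈ D} => s),
      (∏ j : {j // j ∈ D}, c (p j)) *
        ∑ y ∈ range X, ee (∑ j : {j // j ∈ D}, (p j : ℝ) * (N y / (l : ℝ) ^ (j : ℕ))) := by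
    rw [hT]
    push_cast
    simp_rw [hg, Finset.prod_univ_sum, Finset.prod_mul_distrib, ee_sum]
    rw [Finset.sum_comm]
    simp_rw [Finset.mul_sum]
  have hcardD : Fintype.card {j // j ∈ D} = D.card := Fintype.card_coe D
  have hnorm : ‖(T : ℂ)‖ ≤ ∑ p ∈ Fintype.piFinset (fun _ : {j // j ∈ D} => s),
      ((if p = 0 then β ^ D.card * X else 0) + (∏ j : {j // j ∈ D}, ‖c (p j)‖) * (δ * X)) := by
    rw [hexp]
    refine (norm_sum_le _ _).trans (Finset.sum_le_sum fun p hp => ?_)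
    rw [Fintype.mem_piFinset] at hp
    rw [norm_mul, norm_prod]
    have hX0 : (0 : ℝ) ≤ X := Nat.cast_nonneg X
    have hpr : 0 ≤ ∏ j : {j // j ∈ D}, ‖c (p j)‖ := Finset.prod_nonneg fun _ _ => norm_nonneg _
    by_cases hp0 : p = 0
    · rw [if_pos hp0]
      have e1 : ∏ j : {j // j ∈ D}, ‖c (p j)‖ ≤ β ^ D.card := by
        rw [hp0]
        simp only [Pi.zero_apply, Finset.prod_const, Finset.card_univ, hcardD]
        exact pow_le_pow_left₀ (norm_nonneg _) hc0 _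
      have e2 : ‖∑ y ∈ range X, ee (∑ j : {j // j ∈ D}, (p j : ℝ) * (N y / (l : ℝ) ^ (j : ℕ)))‖ ≤ X := by
        refine (norm_sum_le _ _).trans ?_
        simp [norm_ee]
      have e3 : (∏ j : {j // j ∈ D}, ‖c (p j)‖) *
          ‖∑ y ∈ range X, ee (∑ j : {j // j ∈ D}, (p j : ℝ) * (N y / (l : ℝ) ^ (j : ℕ)))‖ ≤
          β ^ D.card * X := mul_le_mul e1 e2 (norm_nonneg _) (by positivity)
      have e4 : 0 ≤ (∏ j : {j // j ∈ D}, ‖c (p j)‖) * (δ * X) := by positivity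
      linarith
    · rw [if_neg hp0, zero_add]
      apply mul_le_mul_of_nonneg_left _ hpr
      -- extend `p` to `ℕ`
      set q : ℕ → ℤ := fun j => if h : j + 1 ∈ D then p ⟨j + 1, h⟩ else 0 with hq
      have hqin : ∀ j, q j ≠ 0 → j + 1 ∈ D := by
        intro j hj
        by_contra hcon
        apply hj
        rw [hq]; simp [hcon]
      have hq1 : ∀ j, q j ≠ 0 → ¬ (l : ℤ) ∣ q j := by
        intro j hj
        have hjD := hqin j hj
        have : q j = p ⟨j + 1, hjD⟩ := by rw [hq]; simp [hjD]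
        rw [this] at hj ⊢
        exact hunit _ (hp _) hj
      have hqp : ∀ j : {j // j ∈ D}, q ((j : ℕ) - 1) = p j := by
        intro j
        have hj1 := (hD j j.2).1
        have hj2 : (j : ℕ) - 1 + 1 = j := by omega
        rw [hq]
        simp only
        have hj3 : (j : ℕ) - 1 + 1 ∈ D := by rw [hj2]; exact j.2
        rw [dif_pos hj3]
        congr 1
        exact Subtype.ext hj2
      have hq2 : ∃ j < J0, q j ≠ 0 := by
        by_contra hcon
        push Not at hcon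
        apply hp0
        funext j
        have hj1 := hD j j.2
        have := hcon ((j : ℕ) - 1) (by omega)
        rw [hqp] at this
        exact this
      obtain ⟨J', hJ1, hJ2, H, hH, hsum⟩ := sum_unit' l hl.pos q hq1 J0 hq2
      have hJD := hqin J' hJ2
      have e1 : ∀ y, ∑ j : {j // j ∈ D}, (p j : ℝ) * (N y / (l : ℝ) ^ (j : ℕ)) =
          (H : ℝ) * ((NN l n0 n1 k2 k3 y : ℤ) : ℝ) / (l : ℝ) ^ (J' + 1) := by
        intro y
        have e2 : ∑ j : {j // j ∈ D}, (p j : ℝ) * (N y / (l : ℝ) ^ (j : ℕ)) =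
            ∑ j ∈ range J0, (q j : ℝ) * (N y / (l : ℝ) ^ (j + 1)) := by
          have e3 : ∑ j ∈ range J0, (q j : ℝ) * (N y / (l : ℝ) ^ (j + 1)) =
              ∑ j ∈ (range J0).filter (fun j => j + 1 ∈ D), (q j : ℝ) * (N y / (l : ℝ) ^ (j + 1)) := by
            rw [Finset.sum_filter]
            apply Finset.sum_congr rfl
            intro j _
            split_ifs with h
            · rfl
            · have : q j = 0 := by
                by_contra h'
                exact h (hqin j h')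
              rw [this]; simp
          rw [e3]
          have e4 : ∑ j : {j // j ∈ D}, (p j : ℝ) * (N y / (l : ℝ) ^ (j : ℕ)) =
              ∑ j ∈ D, (q (j - 1) : ℝ) * (N y / (l : ℝ) ^ j) := by
            rw [← Finset.sum_attach D]
            apply Finset.sum_congr rfl
            intro j _
            rw [hqp]
          rw [e4]
          symm
          apply Finset.sum_nbij' (fun j => j + 1) (fun j => j - 1)
          · intro j hj
            rw [mem_filter] at hj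
            exact hj.2
          · intro j hj
            have := hD j hj
            rw [mem_filter, mem_range]
            refine ⟨by omega, ?_⟩
            rw [show j - 1 + 1 = j by omega]; exact hj
          · intro j _; simp
          · intro j hj
            have := hD j hj
            show j - 1 + 1 = j
            omega
          · intro j _
            simp
        rw [e2]
        have e3 : ∑ j ∈ range J0, (q j : ℝ) * (N y / (l : ℝ) ^ (j + 1)) =
            N y * ∑ j ∈ range J0, (q j : ℝ) / (l : ℝ) ^ (j + 1) := by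
          rw [Finset.mul_sum]
          apply Finset.sum_congr rfl
          intro j _
          ring
        rw [e3, hsum]
        ring
      simp_rw [e1]
      refine hph l hl hl0 X hX n0 n1 k2 k3 h1 h3 (J' + 1) (by omega) ?_ ?_ H hH
      · intro h; rw [h] at hJD; exact h2 hJD
      · intro h; exact hcond (J' + 1) hJD h
  have hfin : ∑ p ∈ Fintype.piFinset (fun _ : {j // j ∈ D} => s),
      ((if p = 0 then β ^ D.card * X else 0) + (∏ j : {j // j ∈ D}, ‖c (p j)‖) * (δ * X)) =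
      β ^ D.card * X + C ^ D.card * (δ * X) := by
    have e1 := Finset.prod_univ_sum (fun _ : {j // j ∈ D} => s) (fun _ h => ‖c h‖)
    have e2 : (0 : {j // j ∈ D} → ℤ) ∈ Fintype.piFinset (fun _ : {j // j ∈ D} => s) :=
      Fintype.mem_piFinset.mpr fun _ => hs0
    rw [Finset.sum_add_distrib, ← Finset.sum_mul, ← e1, Finset.sum_ite_eq', if_pos e2]
    rw [Finset.prod_const, Finset.card_univ, hcardD]
  rw [hfin, Complex.norm_real, Real.norm_eq_abs] at hnorm
  refine hcount.trans ((le_abs_self T).trans (hnorm.trans ?_))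
  have h4 := hδC D.card hDcard
  have hX0 : (0 : ℝ) ≤ X := Nat.cast_nonneg X
  nlinarith

end Pool.Agent.H15.Rud
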