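import Mathlib

/-!
# Ruderman quotient (MP_1b1194_nt): basic objects

The family of integers is `n = (x^3 - 49 x + 120) / 120`, with `x = 83 mod 120`.  Then
`120 n = (x-3)(x-5)(x+8)`, `120 (n-1) = x(x-7)(x+7)`, `120 (n-2) = (x+3)(x+5)(x-8)`.
-/

namespace Pool.Agent.H15.Rud

/-- The nine roots. -/
def roots : Finset ℤ := {-8, 3, 5, -7, 0, 7, -5, -3, 8}

/-- `Good q l j n`: the remainder of `n` modulo `l^j` lies between `(l^j+6)/2` and `l^j-q`,
so that position `j` contributes one to the exponent of `l` in `(2n-6)! / (n! (n+q)!)`. -/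
def Good (q l j n : ℕ) : Prop := l ^ j + 6 ≤ 2 * (n % l ^ j) ∧ n % l ^ j + q < l ^ j

/-- The parameter `x = M z - c`. -/
def X (M c z : ℕ) : ℤ := (M : ℤ) * z - c

/-- The integer `n = (x^3 - 49 x + 120)/120`. -/
def N (M c z : ℕ) : ℕ := ((X M c z ^ 3 - 49 * X M c z + 120) / 120).toNat

/-- Conditions on the parameters. -/
structure Par (M c : ℕ) : Prop where
  dvd : 120 ∣ M
  cmod : c % 120 = 37
  le : c + 200 ≤ M

/-- The count which has to be bounded: `z ≤ Z` with `l ∣ x - a` and all digits in `J` bad. -/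
noncomputable def badCount (q M c : ℕ) (a : ℤ) (l : ℕ) (J : Finset ℕ) (Z : ℕ) : ℕ := by
  classical
  exact ((Finset.Icc 1 Z).filter (fun z => (l : ℤ) ∣ X M c z - a ∧
    ∀ j ∈ J, ¬ Good q l j (N M c z))).card

/-- The sum of `1/p` over the primes `y < p ≤ y'`. -/
noncomputable def recSum (y y' : ℝ) : ℝ :=
  ∑ p ∈ (Finset.Ioc ⌊y⌋₊ ⌊y'⌋₊).filter Nat.Prime, (1 : ℝ) / p

end Pool.Agent.H15.Rud
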