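import Pool.Agent.H15.Rud.Defs
import Pool.Agent.H38.ETPrimes

/-!
# Sums over primes

Mertens' theorem for the sum of `1/p` over ranges `(c1 Z^a, c2 Z^b]`.
-/

namespace Pool.Agent.H15.Rud

open Finset Real Pool.Agent.H38.ET

/-- Lower bound for `∑ log p / p`. -/
theorem le_sum_log_div (y : ℕ) (hy : 1 ≤ y) :
    log y - 3 ≤ ∑ p ∈ pr y, log p / p := by
  have hy0 : (0 : ℝ) < y := by exact_mod_cast hy
  -- factorization of y!
  have h1 : log (y.factorial : ℝ) = ∑ p ∈ pr y, (padicValNat p y.factorial : ℝ) * log p := by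
    have h2 : (y.factorial : ℕ) = ∏ p ∈ pr y, p ^ (padicValNat p y.factorial) := by
      conv_lhs => rw [← Nat.factorization_prod_pow_eq_self (Nat.factorial_ne_zero y)]
      rw [Finsupp.prod_of_support_subset (s := pr y)]
      · apply Finset.prod_congr rfl
        intro p hp
        rw [mem_pr] at hp
        rw [Nat.factorization_def _ hp.2]
      · intro p hp
        rw [Nat.support_factorization, Nat.mem_primeFactors] at hp
        rw [mem_pr]
        exact ⟨(Nat.Prime.dvd_factorial hp.1).1 hp.2.1, hp.1⟩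
      · intro i _; simp
    conv_lhs => rw [h2]
    push_cast
    rw [Real.log_prod]
    · apply Finset.sum_congr rfl
      intro p _
      rw [Real.log_pow]
    · intro p hp
      rw [mem_pr] at hp
      have : (p : ℝ) ≠ 0 := by exact_mod_cast hp.2.ne_zero
      positivity
  have h3 : ∀ p ∈ pr y, (padicValNat p y.factorial : ℝ) * log p
      ≤ y * (log p / p) + y * (log p / (p * (p - 1))) := by
    intro p hp
    rw [mem_pr] at hp
    haveI : Fact p.Prime := ⟨hp.2⟩
    have h4 := sub_one_mul_padicValNat_factorial (p := p) y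
    have h5 : (p - 1) * padicValNat p y.factorial ≤ y := by
      rw [h4]; exact Nat.sub_le _ _
    have hp2 : 2 ≤ p := hp.2.two_le
    have hp2' : (2 : ℝ) ≤ p := by exact_mod_cast hp2
    have h6 : ((p : ℝ) - 1) * (padicValNat p y.factorial : ℝ) ≤ y := by
      have : (((p - 1) * padicValNat p y.factorial : ℕ) : ℝ) ≤ (y : ℝ) := by exact_mod_cast h5
      rw [Nat.cast_mul, Nat.cast_sub (by omega)] at this
      simpa using this
    have h7 : (padicValNat p y.factorial : ℝ) ≤ y / ((p : ℝ) - 1) := by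
      rw [le_div_iff₀ (by linarith)]; linarith
    have hl : 0 ≤ log (p : ℝ) := Real.log_natCast_nonneg p
    have h8 : (y : ℝ) / ((p : ℝ) - 1) * log p = y * (log p / p) + y * (log p / (p * (p - 1))) := by
      have : (p : ℝ) - 1 ≠ 0 := by linarith
      field_simp
      ring
    rw [← h8]
    exact mul_le_mul_of_nonneg_right h7 hl
  have h9 : ∑ p ∈ pr y, log (p : ℝ) / (p * (p - 1)) ≤ 2 := by
    have h10 : ∑ p ∈ pr y, log (p : ℝ) / (p * (p - 1))
        ≤ ∑ m ∈ Finset.Icc 2 y, log (m : ℝ) / (m * (m - 1)) := by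
      apply Finset.sum_le_sum_of_subset_of_nonneg
      · intro p hp
        rw [mem_pr] at hp
        rw [Finset.mem_Icc]
        exact ⟨hp.2.two_le, hp.1⟩
      · intro m hm _
        rw [Finset.mem_Icc] at hm
        have : (2 : ℝ) ≤ m := by exact_mod_cast hm.1
        apply div_nonneg (Real.log_natCast_nonneg m)
        nlinarith
    have h11 := sum_log_div_mul_le y hy
    have h12 : 0 ≤ (log y + 2) / (y : ℝ) := by
      have := Real.log_natCast_nonneg y
      positivity
    linarith
  have h13 := Stirling.le_log_factorial_stirling (n := y) (by omega)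
  have h14 : 0 ≤ log (y : ℝ) := Real.log_natCast_nonneg y
  have h15 : 0 ≤ log (2 * π) := Real.log_nonneg (by nlinarith [Real.pi_gt_three])
  have h16 : log (y.factorial : ℝ) ≤ y * (∑ p ∈ pr y, log (p : ℝ) / p) + y * 2 := by
    rw [h1]
    calc _ ≤ ∑ p ∈ pr y, (y * (log (p : ℝ) / p) + y * (log (p : ℝ) / (p * (p - 1)))) :=
          Finset.sum_le_sum h3
      _ = y * (∑ p ∈ pr y, log (p : ℝ) / p) + y * ∑ p ∈ pr y, log (p : ℝ) / (p * (p - 1)) := by
          rw [Finset.sum_add_distrib, Finset.mul_sum, Finset.mul_sum]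
      _ ≤ _ := by
          have := mul_le_mul_of_nonneg_left h9 hy0.le
          linarith
  have h17 : (y : ℝ) * (log y - 3) ≤ y * ∑ p ∈ pr y, log (p : ℝ) / p := by
    linarith
  exact le_of_mul_le_mul_left h17 hy0

/-- The partial sums of `log p / p`. -/
noncomputable def Am (k : ℕ) : ℝ := ∑ p ∈ pr k, log (p : ℝ) / p

/-- The sum of `1/p` over the primes `m < p ≤ n`. -/
noncomputable def rs (m n : ℕ) : ℝ := ∑ p ∈ (Finset.Ioc m n).filter Nat.Prime, (1 : ℝ) / p

theorem pr_succ (k : ℕ) : pr (k + 1) = if (k + 1).Prime then insert (k + 1) (pr k) else pr k := by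
  ext p
  split_ifs with h
  · rw [Finset.mem_insert, mem_pr, mem_pr]
    constructor
    · rintro ⟨h1, h2⟩
      by_cases h3 : p = k + 1
      · exact Or.inl h3
      · exact Or.inr ⟨by omega, h2⟩
    · rintro (h1 | ⟨h1, h2⟩)
      · rw [h1]; exact ⟨le_rfl, h⟩
      · exact ⟨by omega, h2⟩
  · rw [mem_pr, mem_pr]
    constructor
    · rintro ⟨h1, h2⟩
      have : p ≠ k + 1 := by rintro rfl; exact h h2
      exact ⟨by omega, h2⟩
    · rintro ⟨h1, h2⟩
      exact ⟨by omega, h2⟩

theorem Am_succ (k : ℕ) :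
    Am (k + 1) = Am k + if (k + 1).Prime then log ((k + 1 : ℕ) : ℝ) / ((k + 1 : ℕ) : ℝ) else 0 := by
  unfold Am
  rw [pr_succ]
  split_ifs with h
  · rw [Finset.sum_insert]
    · ring
    · rw [mem_pr]; omega
  · ring

theorem rs_succ {m n : ℕ} (h : m ≤ n) :
    rs m (n + 1) = rs m n + if (n + 1).Prime then (1 : ℝ) / ((n + 1 : ℕ) : ℝ) else 0 := by
  unfold rs
  rw [← Finset.insert_Ioc_right_eq_Ioc_add_one h, Finset.filter_insert]
  split_ifs with h1
  · rw [Finset.sum_insert]
    · ring
    · simp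
  · ring

/-- Summation by parts. -/
theorem rs_eq (m : ℕ) (hm : 2 ≤ m) (n : ℕ) (hn : m ≤ n) :
    rs m n = Am n / log n - Am m / log m
      + ∑ k ∈ Finset.Ico m n, Am k * (1 / log k - 1 / log ((k + 1 : ℕ) : ℝ)) := by
  induction n, hn using Nat.le_induction with
  | base => simp [rs]
  | succ n hn ih =>
    rw [rs_succ hn, ih, Finset.sum_Ico_succ_top hn, Am_succ]
    have h1 : (0 : ℝ) < log (n : ℝ) := Real.log_pos (by exact_mod_cast (by omega : 1 < n))
    have h2 : (0 : ℝ) < log ((n + 1 : ℕ) : ℝ) := Real.log_pos (by exact_mod_cast (by omega : 1 < n + 1))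
    have h3 : (0 : ℝ) < ((n + 1 : ℕ) : ℝ) := by positivity
    split_ifs with h
    · field_simp
      ring
    · field_simp
      ring

/-- **Mertens**, upper bound on a range. -/
theorem rs_le (m : ℕ) (hm : 2 ≤ m) (n : ℕ) (hn : m ≤ n) :
    rs m n ≤ log (log n / log m) + 5 / log m := by
  have hlm : 0 < log (m : ℝ) := Real.log_pos (by exact_mod_cast (by omega : 1 < m))
  have hln : 0 < log (n : ℝ) := Real.log_pos (by exact_mod_cast (by omega : 1 < n))
  have hA : ∀ k : ℕ, 1 ≤ k → Am k ≤ log k + log 4 := fun k hk => sum_log_div_le k hk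
  have hB : log m - 3 ≤ Am m := le_sum_log_div m (by omega)
  have key : ∀ n : ℕ, m ≤ n → ∑ k ∈ Finset.Ico m n, Am k * (1 / log k - 1 / log ((k + 1 : ℕ) : ℝ))
      ≤ log (log n) - log (log m) + log 4 * (1 / log m - 1 / log n) := by
    intro n hn
    induction n, hn using Nat.le_induction with
    | base => simp
    | succ n hn ih =>
      rw [Finset.sum_Ico_succ_top hn]
      have h1 : (0 : ℝ) < log (n : ℝ) := Real.log_pos (by exact_mod_cast (by omega : 1 < n))
      have h2 : (0 : ℝ) < log ((n + 1 : ℕ) : ℝ) :=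
        Real.log_pos (by exact_mod_cast (by omega : 1 < n + 1))
      have h12 : log (n : ℝ) ≤ log ((n + 1 : ℕ) : ℝ) :=
        Real.log_le_log (by exact_mod_cast (by omega : 0 < n)) (by push_cast; linarith)
      have h3 : 0 ≤ 1 / log (n : ℝ) - 1 / log ((n + 1 : ℕ) : ℝ) := by
        rw [sub_nonneg]; exact one_div_le_one_div_of_le h1 h12
      have h4 : Am n * (1 / log (n : ℝ) - 1 / log ((n + 1 : ℕ) : ℝ))
          ≤ (log n + log 4) * (1 / log (n : ℝ) - 1 / log ((n + 1 : ℕ) : ℝ)) :=
        mul_le_mul_of_nonneg_right (hA n (by omega)) h3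
      have h5 : log (n : ℝ) * (1 / log (n : ℝ) - 1 / log ((n + 1 : ℕ) : ℝ))
          ≤ log (log ((n + 1 : ℕ) : ℝ)) - log (log (n : ℝ)) := by
        have h6 : log (log (n : ℝ) / log ((n + 1 : ℕ) : ℝ))
            ≤ log (n : ℝ) / log ((n + 1 : ℕ) : ℝ) - 1 :=
          Real.log_le_sub_one_of_pos (by positivity)
        rw [Real.log_div h1.ne' h2.ne'] at h6
        have h7 : log (n : ℝ) * (1 / log (n : ℝ) - 1 / log ((n + 1 : ℕ) : ℝ))
            = 1 - log (n : ℝ) / log ((n + 1 : ℕ) : ℝ) := by
          field_simp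
        rw [h7]; linarith
      have h8 : (log n + log 4) * (1 / log (n : ℝ) - 1 / log ((n + 1 : ℕ) : ℝ))
          = log (n : ℝ) * (1 / log (n : ℝ) - 1 / log ((n + 1 : ℕ) : ℝ))
            + log 4 * (1 / log (n : ℝ) - 1 / log ((n + 1 : ℕ) : ℝ)) := by ring
      linarith
  rw [rs_eq m hm n hn, Real.log_div hln.ne' hlm.ne']
  have h1 : Am n / log n ≤ 1 + log 4 / log n := by
    have : (log n + log 4) / log n = 1 + log 4 / log n := by field_simp
    rw [← this]
    exact div_le_div_of_nonneg_right (hA n (by omega)) hln.le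
  have h2 : 1 - 3 / log m ≤ Am m / log m := by
    have : (log m - 3) / log m = 1 - 3 / log m := by field_simp
    rw [← this]
    exact div_le_div_of_nonneg_right hB hlm.le
  have h3 := key n hn
  have h4 : log 4 ≤ 2 := by
    have := Real.log_two_lt_d9
    have h : (4 : ℝ) = 2 ^ 2 := by norm_num
    rw [h, Real.log_pow]; push_cast; linarith
  have h5 : log 4 * (1 / log m - 1 / log n) = log 4 / log (m : ℝ) - log 4 / log n := by ring
  have h6 : log 4 / log (m : ℝ) ≤ 2 / log m := div_le_div_of_nonneg_right h4 hlm.le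
  have h7 : (5 : ℝ) / log m = 3 / log m + 2 / log m := by ring
  linarith

end Pool.Agent.H15.Rud
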