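import Pool.Agent.H15.Rud.Mertens

/-!
# Asymptotic form of the sums over primes
-/

namespace Pool.Agent.H15.Rud

open Finset Real Pool.Agent.H38.ET Filter Topology

theorem recSum_eq_rs (y y' : ℝ) : recSum y y' = rs ⌊y⌋₊ ⌊y'⌋₊ := rfl

theorem tendsto_ratio {a b u v : ℝ} (ha : 0 < a) (hb : 0 < b) :
    Tendsto (fun Z : ℝ => log ((v + b * log Z) / (u + a * log Z)) + 5 / (u + a * log Z)) atTop
      (𝓝 (log (b / a))) := by
  have h1 : Tendsto (fun L : ℝ => log ((v + b * L) / (u + a * L)) + 5 / (u + a * L)) atTop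
      (𝓝 (log (b / a) + 0)) := by
    have hden : Tendsto (fun L : ℝ => u + a * L) atTop atTop :=
      tendsto_atTop_add_const_left _ _ (tendsto_id.const_mul_atTop ha)
    have hinv : Tendsto (fun L : ℝ => L⁻¹) atTop (𝓝 0) := tendsto_inv_atTop_zero
    apply Tendsto.add
    · apply Tendsto.log _ (by positivity)
      have h2 : Tendsto (fun L : ℝ => (v * L⁻¹ + b) / (u * L⁻¹ + a)) atTop
          (𝓝 ((v * 0 + b) / (u * 0 + a))) := by
        apply Tendsto.div
        · exact (hinv.const_mul v).add_const b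
        · exact (hinv.const_mul u).add_const a
        · simp; exact ha.ne'
      have h3 : (v * 0 + b) / (u * 0 + a) = b / a := by simp
      rw [h3] at h2
      apply h2.congr'
      filter_upwards [eventually_gt_atTop 0, hden.eventually_gt_atTop 0] with L hL hL2
      have h4 : u * L⁻¹ + a = (u + a * L) * L⁻¹ := by field_simp
      have h5 : v * L⁻¹ + b = (v + b * L) * L⁻¹ := by field_simp
      rw [h4, h5, mul_div_mul_right _ _ (inv_ne_zero hL.ne')]
    · exact hden.const_div_atTop 5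
  rw [add_zero] at h1
  exact h1.comp tendsto_log_atTop

/-- **Mertens on ranges.** -/
theorem recSum_le {a b c1 c2 : ℝ} (ha : 0 < a) (hab : a ≤ b) (hc1 : 0 < c1) (hc2 : 0 < c2) :
    ∀ ε > 0, ∃ Z0 : ℝ, ∀ Z ≥ Z0, recSum (c1 * Z ^ a) (c2 * Z ^ b) ≤ log (b / a) + ε := by
  intro ε hε
  have hb : 0 < b := lt_of_lt_of_le ha hab
  have hlab : 0 ≤ log (b / a) := Real.log_nonneg (by rw [le_div_iff₀ ha]; linarith)
  have h1 := (tendsto_ratio (u := log (c1 / 2)) (v := log c2) ha hb).eventually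
    (gt_mem_nhds (show log (b / a) < log (b / a) + ε by linarith))
  have h2 : Tendsto (fun Z : ℝ => c1 * Z ^ a) atTop atTop :=
    (tendsto_rpow_atTop ha).const_mul_atTop hc1
  have h3 : ∀ᶠ Z : ℝ in atTop, (4 : ℝ) ≤ c1 * Z ^ a := h2.eventually_ge_atTop 4
  obtain ⟨Z0, hZ0⟩ := eventually_atTop.1 (h1.and (h3.and (eventually_gt_atTop (1 : ℝ))))
  refine ⟨Z0, fun Z hZ => ?_⟩
  obtain ⟨hA, hB, hZ1⟩ := hZ0 Z hZ
  have hZp : 0 < Z := by linarith
  rw [recSum_eq_rs]
  set m := ⌊c1 * Z ^ a⌋₊ with hm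
  set n := ⌊c2 * Z ^ b⌋₊ with hn
  have hm1 : c1 * Z ^ a - 1 < m := by
    have := Nat.lt_floor_add_one (c1 * Z ^ a)
    linarith
  have hm2 : (2 : ℝ) < m := by linarith
  have hm2' : 2 ≤ m := by
    have : (2 : ℝ) < (m : ℝ) := hm2
    have : 2 < m := by exact_mod_cast this
    omega
  have hmc : c1 / 2 * Z ^ a ≤ m := by linarith
  rcases lt_or_ge n m with hnm | hnm
  · have : rs m n = 0 := by
      unfold rs
      rw [Finset.Ioc_eq_empty (by omega)]
      simp
    rw [this]; linarith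
  · have hR := rs_le m hm2' n hnm
    have hlm : log (c1 / 2) + a * log Z ≤ log m := by
      have h4 : log (c1 / 2 * Z ^ a) ≤ log m := Real.log_le_log (by positivity) hmc
      rw [Real.log_mul (by positivity) (by positivity), Real.log_rpow hZp] at h4
      exact h4
    have hln : log n ≤ log c2 + b * log Z := by
      have hn0 : (0 : ℝ) < n := by
        have : (2 : ℝ) ≤ (n : ℝ) := by exact_mod_cast (le_trans hm2' hnm)
        linarith
      have h4 : (n : ℝ) ≤ c2 * Z ^ b := Nat.floor_le (by positivity)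
      have h5 : log n ≤ log (c2 * Z ^ b) := Real.log_le_log hn0 h4
      rw [Real.log_mul (by positivity) (by positivity), Real.log_rpow hZp] at h5
      exact h5
    have hden : 0 < log (c1 / 2) + a * log Z := by
      have h4 : log (c1 / 2 * Z ^ a) = log (c1 / 2) + a * log Z := by
        rw [Real.log_mul (by positivity) (by positivity), Real.log_rpow hZp]
      rw [← h4]
      apply Real.log_pos
      linarith
    have hnpos : 0 < log (n : ℝ) := Real.log_pos (by
      have : (2 : ℝ) ≤ (n : ℝ) := by exact_mod_cast (le_trans hm2' hnm)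
      linarith)
    have hmpos : 0 < log (m : ℝ) := Real.log_pos (by linarith)
    have h6 : log (log n / log m) ≤ log ((log c2 + b * log Z) / (log (c1 / 2) + a * log Z)) := by
      apply Real.log_le_log (by positivity)
      exact div_le_div₀ (by linarith) hln hden hlm
    have h7 : 5 / log (m : ℝ) ≤ 5 / (log (c1 / 2) + a * log Z) :=
      div_le_div_of_nonneg_left (by norm_num) hden hlm
    linarith

/-- The number of primes up to `c Z` is `o(Z)`. -/
theorem card_primes_le {c ε : ℝ} (hc : 0 < c) (hε : 0 < ε) :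
    ∃ Z0 : ℝ, ∀ Z ≥ Z0, ((((Finset.Icc 1 ⌊c * Z⌋₊).filter Nat.Prime).card : ℕ) : ℝ) ≤ ε * Z := by
  have h1 : ∀ᶠ x : ℝ in atTop, ((Nat.primeCounting ⌊x⌋₊ : ℕ) : ℝ) ≤ (log 4 + 1) * x / log x :=
    Chebyshev.eventually_primeCounting_le one_pos
  have h2 : Tendsto (fun Z : ℝ => c * Z) atTop atTop := tendsto_id.const_mul_atTop hc
  have h3 := h2.eventually h1
  have h4 : ∀ᶠ Z : ℝ in atTop, (log 4 + 1) * c / ε ≤ log (c * Z) :=
    (tendsto_log_atTop.comp h2).eventually_ge_atTop _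
  obtain ⟨Z0, hZ0⟩ := eventually_atTop.1 (h3.and (h4.and ((eventually_gt_atTop (0 : ℝ)).and
    (h2.eventually_gt_atTop 1))))
  refine ⟨Z0, fun Z hZ => ?_⟩
  obtain ⟨hA, hB, hZ1, hZ2⟩ := hZ0 Z hZ
  have hlog : 0 < log (c * Z) := Real.log_pos hZ2
  have h5 : ((Finset.Icc 1 ⌊c * Z⌋₊).filter Nat.Prime).card ≤ Nat.primeCounting ⌊c * Z⌋₊ := by
    rw [Nat.primeCounting, Nat.primeCounting', Nat.count_eq_card_filter_range]
    apply Finset.card_le_card
    intro p hp
    rw [Finset.mem_filter, Finset.mem_Icc] at hp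
    rw [Finset.mem_filter, Finset.mem_range]
    exact ⟨by omega, hp.2⟩
  calc ((((Finset.Icc 1 ⌊c * Z⌋₊).filter Nat.Prime).card : ℕ) : ℝ)
      ≤ ((Nat.primeCounting ⌊c * Z⌋₊ : ℕ) : ℝ) := by exact_mod_cast h5
    _ ≤ (log 4 + 1) * (c * Z) / log (c * Z) := hA
    _ ≤ ε * Z := by
        rw [div_le_iff₀ hlog]
        rw [div_le_iff₀ hε] at hB
        nlinarith

/-- The weighted sum over the small primes. -/
theorem sum_log_div (y : ℕ) (hy : 1 ≤ y) :
    ∑ p ∈ (Finset.Icc 1 y).filter Nat.Prime, log (p : ℝ) / p ≤ log y + log 4 := by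
  have h := sum_log_div_le y hy
  have h2 : (Finset.Icc 1 y).filter Nat.Prime = pr y := by
    ext p
    rw [mem_pr, Finset.mem_filter, Finset.mem_Icc]
    constructor
    · rintro ⟨⟨_, h1⟩, h2⟩; exact ⟨h1, h2⟩
    · rintro ⟨h1, h2⟩; exact ⟨⟨h2.one_le, h1⟩, h2⟩
  rw [h2]; exact h

end Pool.Agent.H15.Rud
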