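import Pool.Agent.H15.Rud.Count6
import Pool.Agent.H15.Rud.Ranges

/-!
# The bad values for one root: the regions
-/

namespace Pool.Agent.H15.Rud

open Finset Real Pool.Agent.H34.Rud Filter Topology

/-- The number `f` is bounded by the number of blocks with bad digits. -/
def Blk (two : Prop) (l X : ℕ) (f : ℝ) : Prop := ∃ n0 n1 k2 k3 : ℤ, ¬ (l : ℤ) ∣ n1 ∧
  (two → ¬ (l : ℤ) ∣ k2) ∧ ¬ (l : ℤ) ∣ k3 ∧ ∀ D : Finset ℕ, (∀ j ∈ D, 1 ≤ j) →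
    f ≤ (((range X).filter (fun y => BadD l D (NN l n0 n1 k2 k3 y))).card : ℝ)

theorem sum_reg (P : Finset ℕ) (hP : ∀ l ∈ P, l.Prime) (y y' w : ℝ) (hy : 0 ≤ y)
    (hw : 0 ≤ w) (f : ℕ → ℝ) (hf : ∀ l ∈ P, y < (l : ℝ) → (l : ℝ) ≤ y' → f l ≤ w * (1 / (l : ℝ))) :
    ∑ l ∈ P.filter (fun l : ℕ => y < (l : ℝ) ∧ (l : ℝ) ≤ y'), f l ≤ w * recSum y y' := by
  have h1 : ∑ l ∈ P.filter (fun l : ℕ => y < (l : ℝ) ∧ (l : ℝ) ≤ y'), f l ≤
      ∑ l ∈ P.filter (fun l : ℕ => y < (l : ℝ) ∧ (l : ℝ) ≤ y'), w * (1 / (l : ℝ)) := by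
    apply Finset.sum_le_sum
    intro l hl
    rw [mem_filter] at hl
    exact hf l hl.1 hl.2.1 hl.2.2
  refine h1.trans ?_
  rw [← Finset.mul_sum]
  apply mul_le_mul_of_nonneg_left _ hw
  unfold recSum
  apply Finset.sum_le_sum_of_subset_of_nonneg
  · intro l hl
    rw [mem_filter] at hl
    rw [mem_filter, mem_Ioc]
    exact ⟨⟨(Nat.floor_lt hy).2 hl.2.1, Nat.le_floor hl.2.2⟩, hP l hl.1⟩
  · intro l _ _; positivity

theorem sum_split (P : Finset ℕ) (f : ℕ → ℝ) (hf : ∀ l ∈ P, 0 ≤ f l) (y y' : ℝ) :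
    ∑ l ∈ P.filter (fun l : ℕ => (l : ℝ) ≤ y'), f l ≤
      ∑ l ∈ P.filter (fun l : ℕ => (l : ℝ) ≤ y), f l +
        ∑ l ∈ P.filter (fun l : ℕ => y < (l : ℝ) ∧ (l : ℝ) ≤ y'), f l := by
  classical
  rw [← Finset.sum_union]
  · apply Finset.sum_le_sum_of_subset_of_nonneg
    · intro l hl
      rw [mem_filter] at hl
      rw [mem_union, mem_filter, mem_filter]
      rcases le_or_gt (l : ℝ) y with h | h
      · exact Or.inl ⟨hl.1, h⟩
      · exact Or.inr ⟨hl.1, h, hl.2⟩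
    · intro l hl _
      rw [mem_union, mem_filter, mem_filter] at hl
      rcases hl with h | h
      · exact hf l h.1
      · exact hf l h.1
  · rw [Finset.disjoint_left]
    intro l h1 h2
    rw [mem_filter] at h1 h2
    exact absurd h2.2.1 (not_lt.2 h1.2)

theorem weyl_cond (s κ : ℝ) (hs : s < 2) (hκ : 0 < κ) :
    ∃ Z0 : ℝ, ∀ Z ≥ Z0, Z ^ s * (1 + 10 * log Z) ≤ κ * Z ^ 2 := by
  have hr : 0 < 2 - s := by linarith
  have h1 : (fun x : ℝ => 1 + 10 * log x) =o[atTop] fun x => x ^ (2 - s) := by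
    apply Asymptotics.IsLittleO.add
    · apply Asymptotics.isLittleO_const_left.2
      right
      exact tendsto_norm_atTop_atTop.comp (tendsto_rpow_atTop hr)
    · exact (isLittleO_log_rpow_atTop hr).const_mul_left 10
  have h2 := h1.bound hκ
  obtain ⟨Z0, hZ0⟩ := eventually_atTop.1 (h2.and (eventually_gt_atTop (1 : ℝ)))
  refine ⟨Z0, fun Z hZ => ?_⟩
  obtain ⟨hA, hB⟩ := hZ0 Z hZ
  have hZp : 0 < Z := by linarith
  have h3 : 1 + 10 * log Z ≤ κ * Z ^ (2 - s) := by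
    have h4 : ‖Z ^ (2 - s)‖ = Z ^ (2 - s) := Real.norm_of_nonneg (Real.rpow_nonneg hZp.le _)
    rw [h4] at hA
    exact (le_abs_self _).trans hA
  have h5 : Z ^ s * Z ^ (2 - s) = Z ^ 2 := by
    rw [← Real.rpow_add hZp, ← Real.rpow_natCast]
    congr 1
    push_cast
    ring
  calc Z ^ s * (1 + 10 * log Z) ≤ Z ^ s * (κ * Z ^ (2 - s)) :=
        mul_le_mul_of_nonneg_left h3 (Real.rpow_nonneg hZp.le _)
    _ = κ * (Z ^ s * Z ^ (2 - s)) := by ring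
    _ = κ * Z ^ 2 := by rw [h5]

/-- The hypothesis provided by the counting theorem. -/
def Cnt6 (β ε κ : ℝ) (A l0 : ℕ) : Prop :=
  ∀ l : ℕ, l.Prime → l0 ≤ l → ∀ D : Finset ℕ, (∀ j ∈ D, 1 ≤ j ∧ j ≤ 9) → ∀ X : ℕ, A * l ≤ X →
    (∀ j ∈ D, 3 ≤ j →
      ((l ^ (j - 2) : ℕ) : ℝ) * (1 + Real.log ((l ^ (j - 2) : ℕ) : ℝ)) ≤ κ * (X : ℝ) ^ 2) →
    ∀ n0 n1 k2 k3 : ℤ, ¬ (l : ℤ) ∣ n1 → (2 ∈ D → ¬ (l : ℤ) ∣ k2) → ¬ (l : ℤ) ∣ k3 →
      (((range X).filter (fun y => BadD l D (NN l n0 n1 k2 k3 y))).card : ℝ) ≤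
        (β ^ D.card + ε) * X

theorem X_le (A Z' l : ℕ) (hA : 0 < A) (hl : 0 < l) (h : 1000 * l ≤ Z') :
    ((A * Z' / l + 1 : ℕ) : ℝ) ≤ 1001 / 1000 * ((A * Z' : ℕ) : ℝ) * (1 / (l : ℝ)) := by
  have hlr : (0 : ℝ) < l := by exact_mod_cast hl
  have e1 : ((A * Z' / l : ℕ) : ℝ) ≤ ((A * Z' : ℕ) : ℝ) / (l : ℝ) := Nat.cast_div_le
  have h1 : 1000 * l ≤ A * Z' := h.trans (Nat.le_mul_of_pos_left _ hA)
  have h2 : (1000 : ℝ) * l ≤ ((A * Z' : ℕ) : ℝ) := by exact_mod_cast h1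
  have h3 : (1 : ℝ) ≤ 1 / 1000 * ((A * Z' : ℕ) : ℝ) * (1 / (l : ℝ)) := by
    have e : 1 / 1000 * ((A * Z' : ℕ) : ℝ) * (1 / (l : ℝ)) = ((A * Z' : ℕ) : ℝ) / (1000 * l) := by
      field_simp
    rw [e, le_div_iff₀ (by positivity)]
    linarith
  push_cast [Nat.cast_add] at e1 h3 ⊢
  have e2 : (1001 : ℝ) / 1000 * (A * Z') * (1 / l) = A * Z' / l + 1 / 1000 * (A * Z') * (1 / l) := by
    ring
  rw [e2]
  linarith

theorem X_ge (A Z' l : ℕ) (hA : 0 < A) (hl : 0 < l) :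
    (Z' : ℝ) / l ≤ ((A * Z' / l + 1 : ℕ) : ℝ) := by
  have hlr : (0 : ℝ) < l := by exact_mod_cast hl
  rw [div_le_iff₀ hlr]
  have h1 : A * Z' < l * (A * Z' / l + 1) := Nat.lt_mul_div_succ _ hl
  have h2 : Z' ≤ A * Z' := Nat.le_mul_of_pos_left _ hA
  have h3 : Z' ≤ (A * Z' / l + 1) * l := by rw [mul_comm]; omega
  exact_mod_cast h3

/-- Pointwise bound in the region of `J` digits. -/
theorem region_pt {β ε κ : ℝ} {A l0 : ℕ} (hβ : 1 / 2 < β) (hε : 0 < ε) (hκ : 0 < κ) (hA : 0 < A)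
    (hc : Cnt6 β ε κ A l0) (b : ℝ) (hb : b ≤ 1 / 2) (J : ℕ) (hJ : J ≤ 9)
    (hbJ : b * J < 2) :
    ∃ Z0 : ℕ, ∀ Z' : ℕ, Z0 ≤ Z' → ∀ l : ℕ, l.Prime → l0 ≤ l → (l : ℝ) ≤ (Z' : ℝ) ^ b →
      ∀ D : Finset ℕ, (∀ j ∈ D, 1 ≤ j ∧ j ≤ J) → ∀ (two : Prop), (2 ∈ D → two) → ∀ f : ℝ,
      Blk two l (A * Z' / l + 1) f →
      f ≤ ((β ^ D.card + ε) * (1001 / 1000) * ((A * Z' : ℕ) : ℝ)) * (1 / (l : ℝ)) := by
  obtain ⟨Z1, hZ1⟩ := weyl_cond (b * J) κ hbJ hκ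
  refine ⟨max ⌈Z1⌉₊ 1000000, ?_⟩
  intro Z' hZ' l hl hl0 hlb D hD two htwo f hf
  have hZ1' : Z1 ≤ Z' := by
    have h1 : ⌈Z1⌉₊ ≤ Z' := (le_max_left _ _).trans hZ'
    exact (Nat.le_ceil _).trans (by exact_mod_cast h1)
  have hZ6 : 1000000 ≤ Z' := (le_max_right _ _).trans hZ'
  have hZ6r : (1000000 : ℝ) ≤ Z' := by exact_mod_cast hZ6
  have hZ0 : (0 : ℝ) < Z' := by linarith
  have hlr : (0 : ℝ) < l := by exact_mod_cast hl.pos
  have hl1 : (1 : ℝ) ≤ l := by exact_mod_cast hl.one_le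
  have hlh : (l : ℝ) ≤ (Z' : ℝ) ^ (1 / 2 : ℝ) :=
    hlb.trans (Real.rpow_le_rpow_of_exponent_le (by linarith) hb)
  have hsq : ((Z' : ℝ) ^ (1 / 2 : ℝ)) ^ 2 = Z' := by
    rw [← Real.rpow_natCast, ← Real.rpow_mul hZ0.le]
    norm_num
  have hll : (l : ℝ) ^ 2 ≤ Z' := by
    rw [← hsq]; exact pow_le_pow_left₀ hlr.le hlh 2
  have hlln : l * l ≤ Z' := by
    have : ((l * l : ℕ) : ℝ) ≤ Z' := by push_cast; nlinarith
    exact_mod_cast this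
  have hl1000 : 1000 * l ≤ Z' := by
    by_contra hcon
    push Not at hcon
    nlinarith
  obtain ⟨n0, n1, k2, k3, h1, h2, h3, h4⟩ := hf
  set X := A * Z' / l + 1 with hX
  have hXge := X_ge A Z' l hA hl.pos
  have hXle := X_le A Z' l hA hl.pos hl1000
  rw [← hX] at hXge hXle
  have hAX : A * l ≤ X := by
    have : A * l ≤ A * Z' / l := by
      rw [Nat.le_div_iff_mul_le hl.pos, mul_assoc]
      exact Nat.mul_le_mul_left _ hlln
    omega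
  have hcount := hc l hl hl0 D (fun j hj => ⟨(hD j hj).1, (hD j hj).2.trans hJ⟩) X hAX (by
    intro j hj hj3
    have hjJ := (hD j hj).2
    obtain ⟨e, rfl⟩ : ∃ e, j = e + 3 := ⟨j - 3, by omega⟩
    have e1 : e + 3 - 2 = e + 1 := by omega
    rw [e1]
    push_cast
    rw [Real.log_pow]
    have hlogl : log (l : ℝ) ≤ log Z' := by
      apply Real.log_le_log hlr
      nlinarith
    have hlogl0 : 0 ≤ log (l : ℝ) := Real.log_nonneg hl1
    have hlogZ0 : 0 ≤ log (Z' : ℝ) := Real.log_nonneg (by linarith)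
    have g1 : ((e + 1 : ℕ) : ℝ) * log l ≤ 10 * log Z' := by
      apply mul_le_mul _ hlogl hlogl0 (by norm_num)
      have : e + 1 ≤ 10 := by omega
      exact_mod_cast this
    have g2 : (l : ℝ) ^ (e + 3) ≤ (Z' : ℝ) ^ (b * J) := by
      calc (l : ℝ) ^ (e + 3) ≤ (l : ℝ) ^ J := pow_le_pow_right₀ hl1 hjJ
        _ ≤ ((Z' : ℝ) ^ b) ^ J := pow_le_pow_left₀ hlr.le hlb J
        _ = (Z' : ℝ) ^ (b * J) := by
            rw [← Real.rpow_natCast, ← Real.rpow_mul hZ0.le]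
    have g3 := hZ1 Z' hZ1'
    have g4 : (l : ℝ) ^ (e + 3) * (1 + ((e + 1 : ℕ) : ℝ) * log l) ≤ κ * (Z' : ℝ) ^ 2 := by
      refine le_trans ?_ g3
      apply mul_le_mul g2 (by linarith) (by positivity) (by positivity)
    have g5 : ((Z' : ℝ) / l) ^ 2 ≤ (X : ℝ) ^ 2 := pow_le_pow_left₀ (by positivity) hXge 2
    have g6 : κ * ((Z' : ℝ) / l) ^ 2 ≤ κ * (X : ℝ) ^ 2 := mul_le_mul_of_nonneg_left g5 hκ.le
    refine le_trans ?_ g6
    rw [div_pow, ← mul_div_assoc, le_div_iff₀ (by positivity)]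
    have e2 : (l : ℝ) ^ (e + 1) * (1 + ((e + 1 : ℕ) : ℝ) * log l) * (l : ℝ) ^ 2 =
        (l : ℝ) ^ (e + 3) * (1 + ((e + 1 : ℕ) : ℝ) * log l) := by ring
    rw [e2]; exact g4) n0 n1 k2 k3 h1 (fun h => h2 (htwo h)) h3
  have hw : 0 ≤ β ^ D.card + ε := by positivity
  calc f ≤ (((range X).filter (fun y => BadD l D (NN l n0 n1 k2 k3 y))).card : ℝ) :=
        h4 D (fun j hj => (hD j hj).1)
    _ ≤ (β ^ D.card + ε) * X := hcount
    _ ≤ (β ^ D.card + ε) * (1001 / 1000 * ((A * Z' : ℕ) : ℝ) * (1 / (l : ℝ))) :=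
        mul_le_mul_of_nonneg_left hXle hw
    _ = _ := by ring

theorem pow_small (k : ℕ) (hk : 15 ≤ k) : 2 * (51 / 100 : ℝ) ^ k * ((k : ℝ) + 2) ≤ 1 / 500 := by
  induction k, hk using Nat.le_induction with
  | base => norm_num
  | succ k hk ih =>
    have hk' : (15 : ℝ) ≤ k := by exact_mod_cast hk
    have h1 : (0 : ℝ) ≤ (51 / 100) ^ k := by positivity
    push_cast
    rw [pow_succ]
    have h2 : (51 / 100 : ℝ) * (k + 1 + 2) ≤ k + 2 := by linarith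
    calc 2 * ((51 / 100 : ℝ) ^ k * (51 / 100)) * ((k : ℝ) + 1 + 2)
        = 2 * (51 / 100 : ℝ) ^ k * (51 / 100 * (k + 1 + 2)) := by ring
      _ ≤ 2 * (51 / 100 : ℝ) ^ k * (k + 2) := mul_le_mul_of_nonneg_left h2 (by positivity)
      _ ≤ _ := ih

/-- Pointwise bound for the small primes. -/
theorem small_pt (A Z' l : ℕ) (hA : 0 < A) (hZ' : 1000000 ≤ Z') (hl : l.Prime) (hl6 : 650 < l)
    (hlb : l ^ 16 ≤ Z') (two : Prop) (f : ℝ) (hf : Blk two l (A * Z' / l + 1) f) :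
    f ≤ (1 / 499 * ((A * Z' : ℕ) : ℝ) / log Z') * (log (l : ℝ) / l) := by
  have hlr : (0 : ℝ) < l := by exact_mod_cast hl.pos
  have hlogl : 0 < log (l : ℝ) := Real.log_pos (by exact_mod_cast hl.one_lt)
  have hZr : (1000000 : ℝ) ≤ Z' := by exact_mod_cast hZ'
  have hlogZ : 0 < log (Z' : ℝ) := Real.log_pos (by linarith)
  have hl1000 : 1000 * l ≤ Z' := by
    refine le_trans ?_ hlb
    have h1 : 1000 ≤ l ^ 15 := by
      calc 1000 ≤ 650 ^ 15 := by norm_num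
        _ ≤ l ^ 15 := Nat.pow_le_pow_left hl6.le 15
    calc 1000 * l ≤ l ^ 15 * l := Nat.mul_le_mul_right _ h1
      _ = l ^ 16 := (pow_succ l 15).symm
  obtain ⟨n0, n1, k2, k3, h1, h2, h3, h4⟩ := hf
  set X := A * Z' / l + 1 with hX
  have hXle := X_le A Z' l hA hl.pos hl1000
  rw [← hX] at hXle
  set K := Nat.log l Z' with hK
  have hK16 : 16 ≤ K := Nat.le_log_of_pow_le hl.one_lt hlb
  obtain ⟨k, hk⟩ : ∃ k, K = k + 1 := ⟨K - 1, by omega⟩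
  have hpow : l ^ (k + 1) ≤ Z' := by rw [← hk]; exact Nat.pow_log_le_self l (by omega)
  have hpow2 : Z' < l ^ (k + 2) := by
    have := Nat.lt_pow_succ_log_self hl.one_lt Z'
    rw [← hK, hk] at this
    exact this
  have hkX : l ^ k ≤ X := by
    have : l ^ k ≤ A * Z' / l := by
      rw [Nat.le_div_iff_mul_le hl.pos, ← pow_succ]
      exact hpow.trans (Nat.le_mul_of_pos_left _ hA)
    omega
  have h5 : f ≤ (((range X).filter (fun y => Bad l k (NN l n0 n1 k2 k3 y))).card : ℝ) := by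
    refine (h4 (Icc 1 k) (fun j hj => (mem_Icc.1 hj).1)).trans ?_
    have : ((range X).filter (fun y => BadD l (Icc 1 k) (NN l n0 n1 k2 k3 y))).card ≤
        ((range X).filter (fun y => Bad l k (NN l n0 n1 k2 k3 y))).card := by
      apply Finset.card_le_card
      intro y hy
      rw [mem_filter] at hy ⊢
      exact ⟨hy.1, fun j hj1 hj2 => hy.2 j (mem_Icc.2 ⟨hj1, hj2⟩)⟩
    exact_mod_cast this
  have h6 := exact_count l hl k X n0 n1 k2 k3 h1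
  have h7 : (((range X).filter (fun y => Bad l k (NN l n0 n1 k2 k3 y))).card : ℝ) ≤
      ((X / l ^ k : ℕ) + 1 : ℝ) * ((l / 2 : ℕ) + 1 : ℝ) ^ k := by exact_mod_cast h6
  have h8 : (((l / 2 : ℕ) : ℝ) + 1) ≤ 51 / 100 * l := by
    have e1 : ((l / 2 : ℕ) : ℝ) ≤ (l : ℝ) / 2 := Nat.cast_div_le
    have e2 : (650 : ℝ) < l := by exact_mod_cast hl6
    linarith
  have h9 : (((X / l ^ k : ℕ) : ℝ) + 1) ≤ 2 * X / (l : ℝ) ^ k := by
    have e1 : ((X / l ^ k : ℕ) : ℝ) ≤ (X : ℝ) / ((l ^ k : ℕ) : ℝ) := Nat.cast_div_le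
    push_cast at e1
    have e2 : (1 : ℝ) ≤ (X : ℝ) / (l : ℝ) ^ k := by
      rw [le_div_iff₀ (by positivity), one_mul]
      exact_mod_cast hkX
    have e3 : 2 * X / (l : ℝ) ^ k = (X : ℝ) / (l : ℝ) ^ k + (X : ℝ) / (l : ℝ) ^ k := by ring
    rw [e3]
    linarith
  have h10 : ((X / l ^ k : ℕ) + 1 : ℝ) * ((l / 2 : ℕ) + 1 : ℝ) ^ k ≤ 2 * (51 / 100) ^ k * X := by
    calc ((X / l ^ k : ℕ) + 1 : ℝ) * ((l / 2 : ℕ) + 1 : ℝ) ^ k
        ≤ (2 * X / (l : ℝ) ^ k) * (51 / 100 * l) ^ k :=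
          mul_le_mul h9 (pow_le_pow_left₀ (by positivity) h8 _) (by positivity) (by positivity)
      _ = 2 * (51 / 100) ^ k * X := by
          rw [mul_pow]
          field_simp
  have h11 := pow_small k (by omega)
  have h12 : log (Z' : ℝ) ≤ ((k : ℝ) + 2) * log l := by
    have : (Z' : ℝ) ≤ (l : ℝ) ^ (k + 2) := by exact_mod_cast hpow2.le
    have h := Real.log_le_log (by linarith) this
    rw [Real.log_pow] at h
    push_cast at h
    exact h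
  have h13 : 2 * (51 / 100 : ℝ) ^ k ≤ 1 / 500 * (log l / log Z') := by
    rw [← mul_div_assoc, le_div_iff₀ hlogZ]
    have g : (0 : ℝ) ≤ 2 * (51 / 100 : ℝ) ^ k := by positivity
    calc 2 * (51 / 100 : ℝ) ^ k * log Z' ≤ 2 * (51 / 100 : ℝ) ^ k * (((k : ℝ) + 2) * log l) :=
          mul_le_mul_of_nonneg_left h12 g
      _ = (2 * (51 / 100 : ℝ) ^ k * ((k : ℝ) + 2)) * log l := by ring
      _ ≤ 1 / 500 * log l := mul_le_mul_of_nonneg_right h11 hlogl.le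
  have hX0 : (0 : ℝ) ≤ X := Nat.cast_nonneg X
  have hAZ : (0 : ℝ) ≤ ((A * Z' : ℕ) : ℝ) := Nat.cast_nonneg _
  calc f ≤ 2 * (51 / 100) ^ k * X := h5.trans (h7.trans h10)
    _ ≤ (1 / 500 * (log l / log Z')) * X := mul_le_mul_of_nonneg_right h13 hX0
    _ ≤ (1 / 500 * (log l / log Z')) * (1001 / 1000 * ((A * Z' : ℕ) : ℝ) * (1 / (l : ℝ))) :=
        mul_le_mul_of_nonneg_left hXle (by positivity)
    _ = (1001 / 500000) * (((A * Z' : ℕ) : ℝ) / log Z' * (log l / l)) := by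
        ring
    _ ≤ (1 / 499) * (((A * Z' : ℕ) : ℝ) / log Z' * (log l / l)) :=
        mul_le_mul_of_nonneg_right (by norm_num) (by positivity)
    _ = _ := by ring

end Pool.Agent.H15.Rud
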