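import Pool.Agent.H15.Rud.Region

/-!
# The bad values for one root: the sum
-/

namespace Pool.Agent.H15.Rud

open Finset Real Pool.Agent.H34.Rud Filter Topology

theorem log_le_of (x c : ℝ) (hx : 0 < x) (hc : 0 ≤ c) (h : x ≤ 1 + c + c ^ 2 / 2) : log x ≤ c := by
  rw [Real.log_le_iff_le_exp hx]
  exact h.trans (Real.quadratic_le_exp_of_nonneg hc)

theorem log4_le' : log (4 : ℝ) ≤ 13863 / 10000 := by
  have h1 : log (4 : ℝ) = 2 * log 2 := by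
    rw [show (4 : ℝ) = 2 ^ 2 by norm_num, Real.log_pow]
    norm_num
  have h2 := Real.log_two_lt_d9
  rw [h1]
  linarith

theorem log3552 : log (3552 / 1000 : ℝ) ≤ 12743 / 10000 := by
  have h1 : (3552 / 1000 : ℝ) = 4 * (888 / 1000) := by norm_num
  rw [h1, Real.log_mul (by norm_num) (by norm_num)]
  have h2 : log (888 / 1000 : ℝ) ≤ 888 / 1000 - 1 := Real.log_le_sub_one_of_pos (by norm_num)
  have h3 : log (4 : ℝ) ≤ 13862944 / 10000000 := by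
    have h1 : log (4 : ℝ) = 2 * log 2 := by
      rw [show (4 : ℝ) = 2 ^ 2 by norm_num, Real.log_pow]
      norm_num
    have h2 := Real.log_two_lt_d9
    rw [h1]
    linarith
  linarith

theorem region_sum {β ε κ : ℝ} {A l0 : ℕ} (hβ : 1 / 2 < β) (hε : 0 < ε) (hκ : 0 < κ) (hA : 0 < A)
    (hc : Cnt6 β ε κ A l0) (a b : ℝ) (ha : 0 < a) (hab : a ≤ b) (hb : b ≤ 1 / 2) (J : ℕ)
    (hJ : J ≤ 9) (hbJ : b * J < 2) (C η : ℝ) (hC : log (b / a) ≤ C) (hη : 0 < η) :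
    ∃ Z0 : ℕ, ∀ Z' : ℕ, Z0 ≤ Z' → ∀ P : Finset ℕ, (∀ l ∈ P, l.Prime ∧ l0 ≤ l) →
      ∀ D : Finset ℕ, (∀ j ∈ D, 1 ≤ j ∧ j ≤ J) → ∀ (two : Prop), (2 ∈ D → two) → ∀ f : ℕ → ℝ,
      (∀ l ∈ P, Blk two l (A * Z' / l + 1) (f l)) →
      ∑ l ∈ P.filter (fun l : ℕ => (Z' : ℝ) ^ a < (l : ℝ) ∧ (l : ℝ) ≤ (Z' : ℝ) ^ b), f l ≤
        ((β ^ D.card + ε) * (1001 / 1000) * (C + η)) * ((A * Z' : ℕ) : ℝ) := by
  obtain ⟨Z1, h1⟩ := region_pt hβ hε hκ hA hc b hb J hJ hbJ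
  obtain ⟨Z2, h2⟩ := recSum_le (c1 := 1) (c2 := 1) ha hab one_pos one_pos η hη
  refine ⟨max Z1 ⌈Z2⌉₊, ?_⟩
  intro Z' hZ' P hP D hD two htwo f hf
  have hZ1 : Z1 ≤ Z' := (le_max_left _ _).trans hZ'
  have hZ2 : Z2 ≤ Z' := by
    have h1 : ⌈Z2⌉₊ ≤ Z' := (le_max_right _ _).trans hZ'
    exact (Nat.le_ceil _).trans (by exact_mod_cast h1)
  have hw : 0 ≤ (β ^ D.card + ε) * (1001 / 1000) * ((A * Z' : ℕ) : ℝ) := by
    have : 0 < β := by linarith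
    positivity
  refine (sum_reg P (fun l hl => (hP l hl).1) _ _ _ (Real.rpow_nonneg (Nat.cast_nonneg _) _) hw f ?_).trans ?_
  · intro l hl _ hlb
    exact h1 Z' hZ1 l (hP l hl).1 (hP l hl).2 hlb D hD two htwo (f l) (hf l hl)
  · have h3 := h2 Z' hZ2
    rw [one_mul, one_mul] at h3
    calc (β ^ D.card + ε) * (1001 / 1000) * ((A * Z' : ℕ) : ℝ) * recSum ((Z' : ℝ) ^ a) ((Z' : ℝ) ^ b)
        ≤ (β ^ D.card + ε) * (1001 / 1000) * ((A * Z' : ℕ) : ℝ) * (C + η) :=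
          mul_le_mul_of_nonneg_left (by linarith) hw
      _ = _ := by ring

theorem small_sum (A Z' : ℕ) (hA : 0 < A) (hZ' : 1000000 ≤ Z') (hZl : 140 ≤ log (Z' : ℝ))
    (P : Finset ℕ) (hP : ∀ l ∈ P, l.Prime ∧ 650 < l) (two : Prop) (f : ℕ → ℝ)
    (hf : ∀ l ∈ P, Blk two l (A * Z' / l + 1) (f l)) :
    ∑ l ∈ P.filter (fun l : ℕ => (l : ℝ) ≤ (Z' : ℝ) ^ (1 / 16 : ℝ)), f l ≤
      15 / 100000 * ((A * Z' : ℕ) : ℝ) := by
  have hZr : (1000000 : ℝ) ≤ Z' := by exact_mod_cast hZ'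
  have hZ0 : (0 : ℝ) < Z' := by linarith
  have hlogZ : 0 < log (Z' : ℝ) := by linarith
  set y := ⌊(Z' : ℝ) ^ (1 / 16 : ℝ)⌋₊ with hy
  have hy1 : 1 ≤ y := Nat.le_floor (by
    rw [Nat.cast_one]
    exact Real.one_le_rpow (by linarith) (by norm_num))
  have hw : 0 ≤ 1 / 499 * ((A * Z' : ℕ) : ℝ) / log Z' := by positivity
  calc ∑ l ∈ P.filter (fun l : ℕ => (l : ℝ) ≤ (Z' : ℝ) ^ (1 / 16 : ℝ)), f l
      ≤ ∑ l ∈ P.filter (fun l : ℕ => (l : ℝ) ≤ (Z' : ℝ) ^ (1 / 16 : ℝ)),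
        (1 / 499 * ((A * Z' : ℕ) : ℝ) / log Z') * (log (l : ℝ) / l) := by
        apply Finset.sum_le_sum
        intro l hl
        rw [mem_filter] at hl
        apply small_pt A Z' l hA hZ' (hP l hl.1).1 (hP l hl.1).2 _ two (f l) (hf l hl.1)
        have h1 : (l : ℝ) ^ 16 ≤ Z' := by
          calc (l : ℝ) ^ 16 ≤ ((Z' : ℝ) ^ (1 / 16 : ℝ)) ^ 16 :=
                pow_le_pow_left₀ (Nat.cast_nonneg _) hl.2 16
            _ = Z' := by
                rw [← Real.rpow_natCast, ← Real.rpow_mul hZ0.le]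
                norm_num
        exact_mod_cast h1
    _ = (1 / 499 * ((A * Z' : ℕ) : ℝ) / log Z') *
        ∑ l ∈ P.filter (fun l : ℕ => (l : ℝ) ≤ (Z' : ℝ) ^ (1 / 16 : ℝ)), (log (l : ℝ) / l) := by
        rw [Finset.mul_sum]
    _ ≤ (1 / 499 * ((A * Z' : ℕ) : ℝ) / log Z') * (log y + log 4) := by
        apply mul_le_mul_of_nonneg_left _ hw
        refine le_trans ?_ (sum_log_div y hy1)
        apply Finset.sum_le_sum_of_subset_of_nonneg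
        · intro l hl
          rw [mem_filter] at hl
          rw [mem_filter, mem_Icc]
          exact ⟨⟨(hP l hl.1).1.one_le, Nat.le_floor hl.2⟩, (hP l hl.1).1⟩
        · intro l _ _
          exact div_nonneg (Real.log_natCast_nonneg l) (Nat.cast_nonneg l)
    _ ≤ (1 / 499 * ((A * Z' : ℕ) : ℝ) / log Z') * (73 / 1000 * log Z') := by
        apply mul_le_mul_of_nonneg_left _ hw
        have h1 : log (y : ℝ) ≤ 1 / 16 * log Z' := by
          have hy0 : (0 : ℝ) < y := by exact_mod_cast hy1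
          have h2 : (y : ℝ) ≤ (Z' : ℝ) ^ (1 / 16 : ℝ) := Nat.floor_le (by positivity)
          have h3 := Real.log_le_log hy0 h2
          rwa [Real.log_rpow hZ0] at h3
        have h2 := log4_le'
        linarith
    _ = 73 / 499000 * ((A * Z' : ℕ) : ℝ) := by
        field_simp
        ring
    _ ≤ 15 / 100000 * ((A * Z' : ℕ) : ℝ) :=
        mul_le_mul_of_nonneg_right (by norm_num) (Nat.cast_nonneg _)

/-- The primes slightly below the square root of `Z`. -/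
theorem triv_sum (A : ℕ) (hA : 0 < A) (c : ℝ) (hc : 0 < c) :
    ∃ Z0 : ℕ, ∀ Z' : ℕ, Z0 ≤ Z' → ∀ P : Finset ℕ, (∀ l ∈ P, l.Prime) → ∀ f : ℕ → ℝ,
      (∀ l ∈ P, f l ≤ ((A * Z' / l + 1 : ℕ) : ℝ)) →
      ∑ l ∈ P.filter (fun l : ℕ => (Z' : ℝ) ^ (49995 / 100000 : ℝ) < (l : ℝ) ∧
        (l : ℝ) ≤ c * (Z' : ℝ) ^ (1 / 2 : ℝ)), f l ≤ 12 / 100000 * ((A * Z' : ℕ) : ℝ) := by
  obtain ⟨Z2, h2⟩ := recSum_le (a := 49995 / 100000) (b := 1 / 2) (c1 := 1) (c2 := c)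
    (by norm_num) (by norm_num) one_pos hc (1 / 100000) (by norm_num)
  refine ⟨max ⌈Z2⌉₊ ⌈(1000 * c) ^ 2 + 1⌉₊, ?_⟩
  intro Z' hZ' P hP f hf
  have hZ2 : Z2 ≤ Z' := by
    have h1 : ⌈Z2⌉₊ ≤ Z' := (le_max_left _ _).trans hZ'
    exact (Nat.le_ceil _).trans (by exact_mod_cast h1)
  have hZ3 : (1000 * c) ^ 2 + 1 ≤ Z' := by
    have h1 : ⌈(1000 * c) ^ 2 + 1⌉₊ ≤ Z' := (le_max_right _ _).trans hZ'
    exact (Nat.le_ceil _).trans (by exact_mod_cast h1)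
  have hZ1 : (1 : ℝ) ≤ Z' := by nlinarith [sq_nonneg (1000 * c)]
  have hZ0 : (0 : ℝ) < Z' := by linarith
  have hsq : ((Z' : ℝ) ^ (1 / 2 : ℝ)) ^ 2 = Z' := by
    rw [← Real.rpow_natCast, ← Real.rpow_mul hZ0.le]
    norm_num
  have hr0 : 0 ≤ (Z' : ℝ) ^ (1 / 2 : ℝ) := Real.rpow_nonneg hZ0.le _
  have hcr : 1000 * c ≤ (Z' : ℝ) ^ (1 / 2 : ℝ) := by
    by_contra hcon
    push Not at hcon
    have : ((Z' : ℝ) ^ (1 / 2 : ℝ)) ^ 2 ≤ (1000 * c) ^ 2 := pow_le_pow_left₀ hr0 hcon.le 2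
    rw [hsq] at this
    linarith
  have hw : 0 ≤ 1001 / 1000 * ((A * Z' : ℕ) : ℝ) := by positivity
  refine (sum_reg P hP _ _ _ (Real.rpow_nonneg (Nat.cast_nonneg _) _) hw f ?_).trans ?_
  · intro l hl _ hlb
    have hl0 := (hP l hl).pos
    have h1000 : 1000 * l ≤ Z' := by
      have h3 : 1000 * (l : ℝ) ≤ Z' := by
        calc 1000 * (l : ℝ) ≤ 1000 * (c * (Z' : ℝ) ^ (1 / 2 : ℝ)) := by linarith
          _ = (1000 * c) * (Z' : ℝ) ^ (1 / 2 : ℝ) := by ring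
          _ ≤ (Z' : ℝ) ^ (1 / 2 : ℝ) * (Z' : ℝ) ^ (1 / 2 : ℝ) := mul_le_mul_of_nonneg_right hcr hr0
          _ = Z' := by rw [← pow_two, hsq]
      exact_mod_cast h3
    exact (hf l hl).trans (X_le A Z' l hA hl0 h1000)
  · have h3 := h2 Z' hZ2
    rw [one_mul] at h3
    have h4 : log (1 / 2 / (49995 / 100000 : ℝ)) ≤ 101 / 1000000 :=
      log_le_of _ _ (by norm_num) (by norm_num) (by norm_num)
    calc 1001 / 1000 * ((A * Z' : ℕ) : ℝ) *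
          recSum ((Z' : ℝ) ^ (49995 / 100000 : ℝ)) (c * (Z' : ℝ) ^ (1 / 2 : ℝ))
        ≤ 1001 / 1000 * ((A * Z' : ℕ) : ℝ) * (101 / 1000000 + 1 / 100000) :=
          mul_le_mul_of_nonneg_left (by linarith) hw
      _ ≤ _ := by
        have : (0 : ℝ) ≤ ((A * Z' : ℕ) : ℝ) := Nat.cast_nonneg _
        nlinarith

/-- The digits used for the root `0` and for the other roots. -/
def DD (two : Bool) (J : ℕ) : Finset ℕ := if two then Icc 1 J else (Icc 1 J).erase 2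

theorem DD_mem (two : Bool) (J : ℕ) : ∀ j ∈ DD two J, 1 ≤ j ∧ j ≤ J := by
  intro j hj
  unfold DD at hj
  split_ifs at hj
  · exact mem_Icc.1 hj
  · exact mem_Icc.1 (Finset.mem_of_mem_erase hj)

theorem DD_two (two : Bool) (J : ℕ) : 2 ∈ DD two J → two = true := by
  intro h
  unfold DD at h
  cases two
  · simp at h
  · rfl

theorem DD_card (two : Bool) (J : ℕ) (hJ : 2 ≤ J) : (DD two J).card = if two then J else J - 1 := by
  unfold DD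
  cases two
  · rw [if_neg (by simp), Finset.card_erase_of_mem (mem_Icc.2 ⟨by norm_num, hJ⟩), Nat.card_Icc]
    simp
  · simp

/-- **The bad values for one root**, primes up to a constant times the square root. -/
theorem root6 : ∃ A l0 : ℕ, 0 < A ∧ ∀ c : ℝ, 0 < c → ∃ Z0 : ℕ, ∀ Z' : ℕ, Z0 ≤ Z' →
    ∀ P : Finset ℕ, (∀ l ∈ P, l.Prime ∧ l0 ≤ l) → ∀ (two : Bool) (f : ℕ → ℝ),
    (∀ l ∈ P, 0 ≤ f l ∧ f l ≤ ((A * Z' / l + 1 : ℕ) : ℝ) ∧
      Blk (two = true) l (A * Z' / l + 1) (f l)) →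
    ∑ l ∈ P.filter (fun l : ℕ => (l : ℝ) ≤ c * (Z' : ℝ) ^ (1 / 2 : ℝ)), f l ≤
      (if two then 269 / 10000 else 533 / 10000) * ((A * Z' : ℕ) : ℝ) := by
  obtain ⟨κ, A, l0, hκ, hA, hcnt⟩ := count6 (1001 / 2000) (1 / 1000000) (by norm_num) (by norm_num)
    (by norm_num) 9
  refine ⟨A, max l0 651, hA, ?_⟩
  intro c hc
  have hβ : (1 / 2 : ℝ) < 1001 / 2000 := by norm_num
  have hε : (0 : ℝ) < 1 / 1000000 := by norm_num
  have hη : (0 : ℝ) < 1 / 100000 := by norm_num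
  have hC6 : Cnt6 (1001 / 2000) (1 / 1000000) κ A l0 := hcnt
  obtain ⟨Z4, h4⟩ := region_sum hβ hε hκ hA hC6 (399 / 1000) (49995 / 100000) (by norm_num)
    (by norm_num) (by norm_num) 4 (by norm_num) (by norm_num) (2273 / 10000) (1 / 100000)
    (log_le_of _ _ (by norm_num) (by norm_num) (by norm_num)) hη
  obtain ⟨Z5, h5⟩ := region_sum hβ hε hκ hA hC6 (333 / 1000) (399 / 1000) (by norm_num)
    (by norm_num) (by norm_num) 5 (by norm_num) (by norm_num) (1817 / 10000) (1 / 100000)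
    (log_le_of _ _ (by norm_num) (by norm_num) (by norm_num)) hη
  obtain ⟨Z6, h6⟩ := region_sum hβ hε hκ hA hC6 (285 / 1000) (333 / 1000) (by norm_num)
    (by norm_num) (by norm_num) 6 (by norm_num) (by norm_num) (1563 / 10000) (1 / 100000)
    (log_le_of _ _ (by norm_num) (by norm_num) (by norm_num)) hη
  obtain ⟨Z7, h7⟩ := region_sum hβ hε hκ hA hC6 (249 / 1000) (285 / 1000) (by norm_num)
    (by norm_num) (by norm_num) 7 (by norm_num) (by norm_num) (1355 / 10000) (1 / 100000)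
    (log_le_of _ _ (by norm_num) (by norm_num) (by norm_num)) hη
  obtain ⟨Z8, h8⟩ := region_sum hβ hε hκ hA hC6 (222 / 1000) (249 / 1000) (by norm_num)
    (by norm_num) (by norm_num) 8 (by norm_num) (by norm_num) (1151 / 10000) (1 / 100000)
    (log_le_of _ _ (by norm_num) (by norm_num) (by norm_num)) hη
  obtain ⟨Z9, h9⟩ := region_sum hβ hε hκ hA hC6 (1 / 16) (222 / 1000) (by norm_num)
    (by norm_num) (by norm_num) 9 (by norm_num) (by norm_num) (12743 / 10000) (1 / 100000)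
    (by
      have e : (222 / 1000 : ℝ) / (1 / 16) = 3552 / 1000 := by norm_num
      rw [e]; exact log3552) hη
  obtain ⟨Zt, ht⟩ := triv_sum A hA c hc
  refine ⟨max Z4 (max Z5 (max Z6 (max Z7 (max Z8 (max Z9 (max Zt (max 1000000 ⌈exp 140⌉₊))))))), ?_⟩
  intro Z' hZ' P hP two f hf
  simp only [max_le_iff] at hZ'
  obtain ⟨hZ4, hZ5, hZ6, hZ7, hZ8, hZ9, hZt, hZm, hZe⟩ := hZ'
  have hP1 : ∀ l ∈ P, l.Prime := fun l hl => (hP l hl).1
  have hP2 : ∀ l ∈ P, l.Prime ∧ l0 ≤ l := fun l hl =>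
    ⟨(hP l hl).1, (le_max_left _ _).trans (hP l hl).2⟩
  have hP3 : ∀ l ∈ P, l.Prime ∧ 650 < l := fun l hl =>
    ⟨(hP l hl).1, (le_max_right l0 651).trans (hP l hl).2⟩
  have hf0 : ∀ l ∈ P, 0 ≤ f l := fun l hl => (hf l hl).1
  have hf1 : ∀ l ∈ P, f l ≤ ((A * Z' / l + 1 : ℕ) : ℝ) := fun l hl => (hf l hl).2.1
  have hfB : ∀ l ∈ P, Blk (two = true) l (A * Z' / l + 1) (f l) := fun l hl => (hf l hl).2.2
  have hZr : (1000000 : ℝ) ≤ Z' := by exact_mod_cast hZm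
  have hlogZ : 140 ≤ log (Z' : ℝ) := by
    rw [Real.le_log_iff_exp_le (by linarith)]
    exact (Nat.le_ceil _).trans (by exact_mod_cast hZe)
  have s0 := sum_split P f hf0 ((Z' : ℝ) ^ (49995 / 100000 : ℝ)) (c * (Z' : ℝ) ^ (1 / 2 : ℝ))
  have s1 := sum_split P f hf0 ((Z' : ℝ) ^ (399 / 1000 : ℝ)) ((Z' : ℝ) ^ (49995 / 100000 : ℝ))
  have s2 := sum_split P f hf0 ((Z' : ℝ) ^ (333 / 1000 : ℝ)) ((Z' : ℝ) ^ (399 / 1000 : ℝ))
  have s3 := sum_split P f hf0 ((Z' : ℝ) ^ (285 / 1000 : ℝ)) ((Z' : ℝ) ^ (333 / 1000 : ℝ))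
  have s4 := sum_split P f hf0 ((Z' : ℝ) ^ (249 / 1000 : ℝ)) ((Z' : ℝ) ^ (285 / 1000 : ℝ))
  have s5 := sum_split P f hf0 ((Z' : ℝ) ^ (222 / 1000 : ℝ)) ((Z' : ℝ) ^ (249 / 1000 : ℝ))
  have s6 := sum_split P f hf0 ((Z' : ℝ) ^ (1 / 16 : ℝ)) ((Z' : ℝ) ^ (222 / 1000 : ℝ))
  have r0 := small_sum A Z' hA hZm hlogZ P hP3 (two = true) f hfB
  have rt := ht Z' hZt P hP1 f hf1
  have r4 := h4 Z' hZ4 P hP2 (DD two 4) (DD_mem two 4) (two = true) (DD_two two 4) f hfB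
  have r5 := h5 Z' hZ5 P hP2 (DD two 5) (DD_mem two 5) (two = true) (DD_two two 5) f hfB
  have r6 := h6 Z' hZ6 P hP2 (DD two 6) (DD_mem two 6) (two = true) (DD_two two 6) f hfB
  have r7 := h7 Z' hZ7 P hP2 (DD two 7) (DD_mem two 7) (two = true) (DD_two two 7) f hfB
  have r8 := h8 Z' hZ8 P hP2 (DD two 8) (DD_mem two 8) (two = true) (DD_two two 8) f hfB
  have r9 := h9 Z' hZ9 P hP2 (DD two 9) (DD_mem two 9) (two = true) (DD_two two 9) f hfB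
  rw [DD_card two _ (by norm_num)] at r4 r5 r6 r7 r8 r9
  set M : ℝ := ((A * Z' : ℕ) : ℝ) with hM
  have hM0 : 0 ≤ M := Nat.cast_nonneg _
  have key : ∑ l ∈ P.filter (fun l : ℕ => (l : ℝ) ≤ c * (Z' : ℝ) ^ (1 / 2 : ℝ)), f l ≤
      (15 / 100000 + 12 / 100000 +
        ((1001 / 2000) ^ (if two then 4 else 4 - 1) + 1 / 1000000) * (1001 / 1000) *
          (2273 / 10000 + 1 / 100000) +
        ((1001 / 2000) ^ (if two then 5 else 5 - 1) + 1 / 1000000) * (1001 / 1000) *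
          (1817 / 10000 + 1 / 100000) +
        ((1001 / 2000) ^ (if two then 6 else 6 - 1) + 1 / 1000000) * (1001 / 1000) *
          (1563 / 10000 + 1 / 100000) +
        ((1001 / 2000) ^ (if two then 7 else 7 - 1) + 1 / 1000000) * (1001 / 1000) *
          (1355 / 10000 + 1 / 100000) +
        ((1001 / 2000) ^ (if two then 8 else 8 - 1) + 1 / 1000000) * (1001 / 1000) *
          (1151 / 10000 + 1 / 100000) +
        ((1001 / 2000) ^ (if two then 9 else 9 - 1) + 1 / 1000000) * (1001 / 1000) *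
          (12743 / 10000 + 1 / 100000)) * M := by
    linarith
  refine key.trans (mul_le_mul_of_nonneg_right ?_ hM0)
  cases two
  · norm_num
  · norm_num

end Pool.Agent.H15.Rud
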