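import Pool.Agent.H15.Rud.Root6
import Pool.Agent.H34.Rud6.Chain

/-!
# The union bound
-/

namespace Pool.Agent.H15.Rud

open Finset Real Pool.Agent.H34 Pool.Agent.H34.Rud6

/-- The number of bad values of `x` for the root `R` and the prime `l`. -/
noncomputable def gg (W : ℕ) (T : ℤ) (Z : ℕ) (R : Root) (l : ℕ) : ℝ :=
  (((range Z).filter (fun x : ℕ => PB R l (120 * W * x + T))).card : ℝ)

theorem gg_nonneg (W : ℕ) (T : ℤ) (Z : ℕ) (R : Root) (l : ℕ) : 0 ≤ gg W T Z R l :=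
  Nat.cast_nonneg _

theorem gg_large (W : ℕ) (T : ℤ) (hT : T % 120 = 83) (hT0 : 0 ≤ T) (hTW : T ≤ 120 * W)
    (Z l : ℕ) (hl : l.Prime) (hl6 : 650 < l) (hlW : ¬ l ∣ W)
    (h : 24000 * W * Z ≤ l ^ 2) :
    (Rud6.roots.map (fun R => gg W T Z R l)).sum ≤ ((Z / l + 1 : ℕ) : ℝ) := by
  have hzero : ∀ R ∈ Rud6.roots, (R.ρ = -8 → l % 5 = 1 ∨ l % 5 = 4) →
      (R.ρ = 5 → l % 5 = 2 ∨ l % 5 = 3) → gg W T Z R l = 0 := by
    intro R hR h8 h5
    unfold gg
    rw [Nat.cast_eq_zero, Finset.card_eq_zero, Finset.filter_eq_empty_iff]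
    intro x hx
    rw [mem_range] at hx
    have hxW : 0 ≤ 120 * (W : ℤ) * x := by positivity
    refine nobad6 R hR l hl hl6 _ (tt_mod W x T hT) (by omega) ?_ h8 h5
    have e1 : ((24000 * W * Z : ℕ) : ℤ) ≤ ((l ^ 2 : ℕ) : ℤ) := by exact_mod_cast h
    push_cast at e1
    have e2 : (x : ℤ) + 1 ≤ Z := by exact_mod_cast hx
    have e3 : 120 * (W : ℤ) * ((x : ℤ) + 1) ≤ 120 * W * Z :=
      mul_le_mul_of_nonneg_left e2 (by positivity)
    nlinarith
  have hle : ∀ R, gg W T Z R l ≤ ((Z / l + 1 : ℕ) : ℝ) := by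
    intro R
    unfold gg
    exact_mod_cast cntle6 W T R l hl hlW hl6 Z
  have h5 : l % 5 ≠ 0 := fun hc => by
    have := (Nat.prime_dvd_prime_iff_eq Nat.prime_five hl).1 (Nat.dvd_of_mod_eq_zero hc); omega
  have hcase : (l % 5 = 1 ∨ l % 5 = 4) ∨ (l % 5 = 2 ∨ l % 5 = 3) := by omega
  have m1 : (⟨-8, 0, -24, 143⟩ : Root) ∈ Rud6.roots := by simp [Rud6.roots]
  have m2 : (⟨3, 0, 9, -22⟩ : Root) ∈ Rud6.roots := by simp [Rud6.roots]
  have m3 : (⟨5, 0, 15, 26⟩ : Root) ∈ Rud6.roots := by simp [Rud6.roots]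
  have m4 : (⟨-7, 1, -21, 98⟩ : Root) ∈ Rud6.roots := by simp [Rud6.roots]
  have m5 : (⟨0, 1, 0, -49⟩ : Root) ∈ Rud6.roots := by simp [Rud6.roots]
  have m6 : (⟨7, 1, 21, 98⟩ : Root) ∈ Rud6.roots := by simp [Rud6.roots]
  have m7 : (⟨-5, 2, -15, 26⟩ : Root) ∈ Rud6.roots := by simp [Rud6.roots]
  have m8 : (⟨-3, 2, -9, -22⟩ : Root) ∈ Rud6.roots := by simp [Rud6.roots]
  have m9 : (⟨8, 2, 24, 143⟩ : Root) ∈ Rud6.roots := by simp [Rud6.roots]
  have z2 := hzero _ m2 (by norm_num) (by norm_num)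
  have z4 := hzero _ m4 (by norm_num) (by norm_num)
  have z5 := hzero _ m5 (by norm_num) (by norm_num)
  have z6 := hzero _ m6 (by norm_num) (by norm_num)
  have z7 := hzero _ m7 (by norm_num) (by norm_num)
  have z8 := hzero _ m8 (by norm_num) (by norm_num)
  have z9 := hzero _ m9 (by norm_num) (by norm_num)
  have e : (Rud6.roots.map (fun R => gg W T Z R l)).sum =
      gg W T Z ⟨-8, 0, -24, 143⟩ l + gg W T Z ⟨5, 0, 15, 26⟩ l := by
    simp only [Rud6.roots, List.map_cons, List.map_nil, List.sum_cons, List.sum_nil, z2, z4, z5, z6, z7,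
      z8, z9]
    ring
  rw [e]
  rcases hcase with hc | hc
  · have z1 := hzero _ m1 (fun _ => hc) (by norm_num)
    rw [z1, zero_add]
    exact hle _
  · have z3 := hzero _ m3 (by norm_num) (fun _ => hc)
    rw [z3, add_zero]
    exact hle _

theorem gg_zero (W : ℕ) (T : ℤ) (hT : T % 120 = 83) (hT0 : 0 ≤ T) (hTW : T ≤ 120 * W)
    (Z l : ℕ) (h : 120 * W * Z + 8 < l) : (Rud6.roots.map (fun R => gg W T Z R l)).sum = 0 := by
  have hzero : ∀ R ∈ Rud6.roots, gg W T Z R l = 0 := by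
    intro R hR
    unfold gg
    rw [Nat.cast_eq_zero, Finset.card_eq_zero, Finset.filter_eq_empty_iff]
    intro x hx hPB
    rw [mem_range] at hx
    have hxW : 0 ≤ 120 * (W : ℤ) * x := by positivity
    obtain ⟨-, -, -, -, -, hρ0, hρ⟩ := root_bd R hR
    have h1 := Int.le_of_dvd (by omega) hPB.1
    have e1 : ((120 * W * Z + 8 : ℕ) : ℤ) < (l : ℤ) := by exact_mod_cast h
    push_cast at e1
    have e2 : (x : ℤ) + 1 ≤ Z := by exact_mod_cast hx
    have e3 : 120 * (W : ℤ) * ((x : ℤ) + 1) ≤ 120 * W * Z :=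
      mul_le_mul_of_nonneg_left e2 (by positivity)
    nlinarith
  apply List.sum_eq_zero
  intro y hy
  rw [List.mem_map] at hy
  obtain ⟨R, hR, rfl⟩ := hy
  exact hzero R hR

theorem list_swap (F : Root → ℕ → ℝ) (P : Finset ℕ) :
    (Rud6.roots.map (fun R => ∑ l ∈ P, F R l)).sum = ∑ l ∈ P, (Rud6.roots.map (fun R => F R l)).sum := by
  induction Rud6.roots with
  | nil => simp
  | cons a L ih =>
    simp only [List.map_cons, List.sum_cons]
    rw [ih, Finset.sum_add_distrib]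

/-- **The union bound.** -/
theorem union6 : ∃ A l0 : ℕ, 0 < A ∧ ∀ (Y W : ℕ) (T : ℤ), T % 120 = 83 → l0 ≤ Y → 1000 ≤ Y →
    0 ≤ T → T ≤ 120 * W → 0 < W → (∀ l : ℕ, l.Prime → Y < l → ¬ l ∣ W) →
    ∃ Z0 : ℕ, ∀ Z' : ℕ, Z0 ≤ Z' → ∀ P : Finset ℕ, (∀ l ∈ P, l.Prime ∧ Y < l) →
    (Rud6.roots.map (fun R => ∑ l ∈ P, gg W T (A * Z') R l)).sum ≤
      97 / 100 * ((A * Z' : ℕ) : ℝ) := by
  obtain ⟨A, l0, hA, hroot⟩ := root6
  refine ⟨A, l0, hA, ?_⟩
  intro Y W T hT hl0 hY hT0 hTW hW hYW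
  have hAr : (0 : ℝ) < A := by exact_mod_cast hA
  have hWr : (0 : ℝ) < W := by exact_mod_cast hW
  set c : ℝ := Real.sqrt (24000 * W * A) with hc
  have hc0 : 0 < c := Real.sqrt_pos.2 (by positivity)
  have hc2 : c ^ 2 = 24000 * W * A := Real.sq_sqrt (by positivity)
  set C : ℝ := 121 * W * A with hC
  have hC0 : 0 < C := by positivity
  obtain ⟨Z1, h1⟩ := hroot c hc0
  obtain ⟨Z2, h2⟩ := recSum_le (a := 1 / 2) (b := 1) (c1 := c) (c2 := C) (by norm_num)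
    (by norm_num) hc0 hC0 (1 / 1000) (by norm_num)
  obtain ⟨Z3, h3⟩ := card_primes_le hC0 (show (0 : ℝ) < 1 / 1000 by norm_num)
  refine ⟨max Z1 (max ⌈Z2⌉₊ (max ⌈Z3⌉₊ 8)), ?_⟩
  intro Z' hZ' P hP
  simp only [max_le_iff] at hZ'
  obtain ⟨hZ1, hZ2, hZ3, hZ8⟩ := hZ'
  have hZ2' : Z2 ≤ Z' := (Nat.le_ceil _).trans (by exact_mod_cast hZ2)
  have hZ3' : Z3 ≤ Z' := (Nat.le_ceil _).trans (by exact_mod_cast hZ3)
  have hZ0 : (0 : ℝ) < Z' := by exact_mod_cast (by omega : 0 < Z')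
  set Z := A * Z' with hZ
  have hZZ : Z' ≤ Z := Nat.le_mul_of_pos_left _ hA
  set M : ℝ := ((Z : ℕ) : ℝ) with hM
  have hM0 : 0 ≤ M := Nat.cast_nonneg _
  have hZM : (Z' : ℝ) ≤ M := by rw [hM]; exact_mod_cast hZZ
  have hPl : ∀ l ∈ P, l.Prime ∧ l0 ≤ l := fun l hl => ⟨(hP l hl).1, by have := (hP l hl).2; omega⟩
  -- the split
  have hsplit : ∀ R, ∑ l ∈ P, gg W T Z R l =
      ∑ l ∈ P.filter (fun l : ℕ => (l : ℝ) ≤ c * (Z' : ℝ) ^ (1 / 2 : ℝ)), gg W T Z R l +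
      ∑ l ∈ P.filter (fun l : ℕ => ¬ (l : ℝ) ≤ c * (Z' : ℝ) ^ (1 / 2 : ℝ)), gg W T Z R l :=
    fun R => (Finset.sum_filter_add_sum_filter_not _ _ _).symm
  have hlist : (Rud6.roots.map (fun R => ∑ l ∈ P, gg W T Z R l)).sum =
      (Rud6.roots.map (fun R => ∑ l ∈ P.filter (fun l : ℕ => (l : ℝ) ≤ c * (Z' : ℝ) ^ (1 / 2 : ℝ)),
        gg W T Z R l)).sum +
      (Rud6.roots.map (fun R => ∑ l ∈ P.filter (fun l : ℕ => ¬ (l : ℝ) ≤ c * (Z' : ℝ) ^ (1 / 2 : ℝ)),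
        gg W T Z R l)).sum := by
    rw [← List.sum_map_add]
    congr 1
    exact List.map_congr_left (fun R _ => hsplit R)
  -- the small primes
  have hsmall : ∀ R ∈ Rud6.roots, ∑ l ∈ P.filter (fun l : ℕ => (l : ℝ) ≤ c * (Z' : ℝ) ^ (1 / 2 : ℝ)),
      gg W T Z R l ≤ (if decide (R.ρ ≠ 0) = true then 269 / 10000 else 533 / 10000) * M := by
    intro R hR
    apply h1 Z' hZ1 P hPl (decide (R.ρ ≠ 0)) (fun l => gg W T Z R l)
    intro l hl
    obtain ⟨hlp, hYl⟩ := hP l hl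
    have hlW := hYW l hlp hYl
    refine ⟨gg_nonneg _ _ _ _ _, ?_, ?_⟩
    · show gg W T Z R l ≤ _
      unfold gg
      exact_mod_cast cntle6 W T R l hlp hlW (by omega) Z
    · obtain ⟨n0, n1, k2, k3, g1, g2, g3, g4⟩ := block6 W T hT R hR l hlp hlW (by omega) Z
      refine ⟨n0, n1, k2, k3, g1, fun h => g2 (of_decide_eq_true h), g3, fun D hD => ?_⟩
      show gg W T Z R l ≤ _
      unfold gg
      have h4 := g4 D hD
      refine le_trans (Nat.cast_le.2 h4) (Nat.cast_le.2 ?_)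
      apply Finset.card_le_card
      intro y hy
      rw [mem_filter] at hy ⊢
      exact ⟨hy.1, hy.2⟩
  have hS : (Rud6.roots.map (fun R => ∑ l ∈ P.filter (fun l : ℕ => (l : ℝ) ≤ c * (Z' : ℝ) ^ (1 / 2 : ℝ)),
        gg W T Z R l)).sum ≤ 2685 / 10000 * M := by
    refine (List.sum_le_sum hsmall).trans (le_of_eq ?_)
    simp only [Rud6.roots, List.map_cons, List.map_nil, List.sum_cons, List.sum_nil]
    norm_num
    ring
  -- the large primes
  have hL : (Rud6.roots.map (fun R => ∑ l ∈ P.filter (fun l : ℕ => ¬ (l : ℝ) ≤ c * (Z' : ℝ) ^ (1 / 2 : ℝ)),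
        gg W T Z R l)).sum ≤ 6952 / 10000 * M := by
    rw [list_swap]
    set Q := P.filter (fun l : ℕ => ¬ (l : ℝ) ≤ c * (Z' : ℝ) ^ (1 / 2 : ℝ)) with hQ
    have hb : ∀ l ∈ Q, (Rud6.roots.map (fun R => gg W T Z R l)).sum ≤
        (if (l : ℝ) ≤ C * Z' then M * (1 / (l : ℝ)) + 1 else 0) := by
      intro l hl
      rw [hQ, mem_filter] at hl
      obtain ⟨hlP, hlc⟩ := hl
      obtain ⟨hlp, hYl⟩ := hP l hlP
      have hlW := hYW l hlp hYl
      have hlr : (0 : ℝ) < l := by exact_mod_cast hlp.pos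
      split_ifs with hh
      · have h5 := gg_large W T hT hT0 hTW Z l hlp (by omega) hlW (by
          push Not at hlc
          have h6 : (c * (Z' : ℝ) ^ (1 / 2 : ℝ)) ^ 2 ≤ (l : ℝ) ^ 2 :=
            pow_le_pow_left₀ (by positivity) hlc.le 2
          rw [mul_pow, hc2, ← Real.rpow_natCast ((Z' : ℝ) ^ (1 / 2 : ℝ)), ← Real.rpow_mul hZ0.le] at h6
          norm_num at h6
          have h7 : ((24000 * W * Z : ℕ) : ℝ) ≤ ((l ^ 2 : ℕ) : ℝ) := by
            rw [hZ]; push_cast; linarith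
          exact_mod_cast h7)
        refine h5.trans ?_
        have e1 : ((Z / l : ℕ) : ℝ) ≤ (Z : ℝ) / (l : ℝ) := Nat.cast_div_le
        push_cast
        rw [mul_one_div]
        linarith
      · apply le_of_eq
        apply gg_zero W T hT hT0 hTW Z l
        push Not at hh
        have h7 : ((121 * W * Z : ℕ) : ℝ) < (l : ℝ) := by
          rw [hZ]; push_cast; rw [hC] at hh; linarith
        have h8 : 121 * W * Z < l := by exact_mod_cast h7
        have h9 : 8 ≤ W * Z := by nlinarith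
        nlinarith
    refine (Finset.sum_le_sum hb).trans ?_
    rw [← Finset.sum_filter, Finset.sum_add_distrib, Finset.sum_const, nsmul_eq_mul, mul_one,
      ← Finset.mul_sum]
    have h5 : ∑ l ∈ Q.filter (fun l : ℕ => (l : ℝ) ≤ C * Z'), 1 / (l : ℝ) ≤
        recSum (c * (Z' : ℝ) ^ (1 / 2 : ℝ)) (C * (Z' : ℝ) ^ (1 : ℝ)) := by
      unfold recSum
      apply Finset.sum_le_sum_of_subset_of_nonneg
      · intro l hl
        rw [mem_filter, hQ, mem_filter] at hl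
        obtain ⟨⟨hlP, hlc⟩, hlC⟩ := hl
        rw [mem_filter, mem_Ioc]
        refine ⟨⟨(Nat.floor_lt (by positivity)).2 (not_le.1 hlc), Nat.le_floor ?_⟩, (hP l hlP).1⟩
        rw [Real.rpow_one]; exact hlC
      · intro l _ _; positivity
    have h6 := h2 Z' hZ2'
    have h7 : log (1 / (1 / 2) : ℝ) ≤ 6932 / 10000 := by
      have : (1 / (1 / 2) : ℝ) = 2 := by norm_num
      rw [this]
      have := Real.log_two_lt_d9
      linarith
    have h8 : ((Q.filter (fun l : ℕ => (l : ℝ) ≤ C * Z')).card : ℝ) ≤ 1 / 1000 * M := by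
      have h9 := h3 Z' hZ3'
      have h10 : (Q.filter (fun l : ℕ => (l : ℝ) ≤ C * Z')).card ≤
          ((Finset.Icc 1 ⌊C * (Z' : ℝ)⌋₊).filter Nat.Prime).card := by
        apply Finset.card_le_card
        intro l hl
        rw [mem_filter, hQ, mem_filter] at hl
        obtain ⟨⟨hlP, hlc⟩, hlC⟩ := hl
        rw [mem_filter, mem_Icc]
        exact ⟨⟨(hP l hlP).1.one_le, Nat.le_floor hlC⟩, (hP l hlP).1⟩
      have h11 : ((Q.filter (fun l : ℕ => (l : ℝ) ≤ C * Z')).card : ℝ) ≤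
          (((Finset.Icc 1 ⌊C * (Z' : ℝ)⌋₊).filter Nat.Prime).card : ℝ) := by exact_mod_cast h10
      linarith
    have h9 : M * ∑ l ∈ Q.filter (fun l : ℕ => (l : ℝ) ≤ C * Z'), 1 / (l : ℝ) ≤
        M * (6942 / 10000) := mul_le_mul_of_nonneg_left (by linarith) hM0
    linarith
  rw [hlist]
  linarith

end Pool.Agent.H15.Rud
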