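import Pool.Agent.H34.Rud.Weyl

/-!
# Weyl sums with averaging over the shifts

For a phase whose leading coefficient is `c / l^e` the bound of the sum over the shifts is
`(X / q + 1) (X + q (1 + log q))`, `q = l^e`; the condition becomes `q log q = o(X^2)`.
-/

namespace Pool.Agent.H15.Rud

open Finset Pool.Agent.H34.Rud

/-- Distance of `e(c/q)` from `1` through the residue. -/
theorem ee_rat_res (c : ℤ) (q : ℕ) (hq : 0 < q) (m : ℕ) (hm : (c % (q : ℤ)) = m) (hm0 : 0 < m) :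
    4 * ((min m (q - m) : ℕ) : ℝ) / q ≤ ‖ee ((c : ℝ) / q) - 1‖ := by
  have hq' : (0 : ℝ) < q := by exact_mod_cast hq
  have h1 : (q : ℤ) * (c / (q : ℤ)) + m = c := by
    rw [← hm]; exact Int.mul_ediv_add_emod c q
  have hmq : m < q := by
    have := Int.emod_lt_of_pos c (by exact_mod_cast hq : (0 : ℤ) < q)
    rw [hm] at this
    exact_mod_cast this
  have h2 : (c : ℝ) / q = (m : ℝ) / q + ((c / (q : ℤ) : ℤ) : ℝ) := by
    have h3 : ((q : ℝ)) * ((c / (q : ℤ) : ℤ) : ℝ) + m = c := by exact_mod_cast h1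
    rw [← h3]
    field_simp
    ring
  rw [h2, ee_add, ee_int, mul_one, norm_ee_sub_one]
  have hpi := Real.pi_pos
  have hmr : (m : ℝ) ≤ q := by exact_mod_cast hmq.le
  have hmr0 : (0 : ℝ) ≤ m := Nat.cast_nonneg m
  have key : 2 * ((min m (q - m) : ℕ) : ℝ) / q ≤ Real.sin (Real.pi * ((m : ℝ) / q)) := by
    rcases le_total ((m : ℝ) / q) (1 / 2) with h | h
    · have h3 := Real.mul_le_sin (x := Real.pi * ((m : ℝ) / q)) (by positivity) (by nlinarith)
      refine le_trans ?_ h3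
      rw [show 2 / Real.pi * (Real.pi * ((m : ℝ) / q)) = 2 * m / q by field_simp]
      apply div_le_div_of_nonneg_right _ hq'.le
      have : ((min m (q - m) : ℕ) : ℝ) ≤ m := by exact_mod_cast min_le_left _ _
      linarith
    · have h4 : Real.sin (Real.pi * ((m : ℝ) / q)) =
          Real.sin (Real.pi * (1 - (m : ℝ) / q)) := by
        rw [← Real.sin_pi_sub]
        congr 1
        ring
      have h6 : 0 ≤ 1 - (m : ℝ) / q := by
        rw [sub_nonneg, div_le_one hq']; exact hmr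
      rw [h4]
      have h3 := Real.mul_le_sin (x := Real.pi * (1 - (m : ℝ) / q)) (by positivity) (by nlinarith)
      refine le_trans ?_ h3
      rw [show 2 / Real.pi * (Real.pi * (1 - (m : ℝ) / q)) = 2 * ((q : ℝ) - m) / q by
        field_simp]
      apply div_le_div_of_nonneg_right _ hq'.le
      have : ((min m (q - m) : ℕ) : ℝ) ≤ ((q - m : ℕ) : ℝ) := by exact_mod_cast min_le_right _ _
      rw [Nat.cast_sub hmq.le] at this
      linarith
  have h7 := le_abs_self (Real.sin (Real.pi * ((m : ℝ) / q)))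
  have h8 : 4 * ((min m (q - m) : ℕ) : ℝ) / q = 2 * (2 * ((min m (q - m) : ℕ) : ℝ) / q) := by ring
  rw [h8]
  linarith

/-- The linear sum. -/
theorem lin_res (q : ℕ) (hq : 0 < q) (c : ℤ) (m : ℕ) (hm : (c % (q : ℤ)) = m) (hm0 : 0 < m)
    (φ : ℕ → ℝ) (hφ : Ph 0 ((c : ℝ) / q) φ) (X : ℕ) :
    ‖∑ y ∈ range X, ee (φ y)‖ ≤ q / 2 * (1 / m + 1 / ((q - m : ℕ) : ℝ)) := by
  have hmq : m < q := by
    have := Int.emod_lt_of_pos c (by exact_mod_cast hq : (0 : ℤ) < q)
    rw [hm] at this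
    exact_mod_cast this
  have hq' : (0 : ℝ) < q := by exact_mod_cast hq
  have hD := ee_rat_res c q hq m hm hm0
  have hmin : 0 < min m (q - m) := by omega
  have hmin' : (0 : ℝ) < ((min m (q - m) : ℕ) : ℝ) := by exact_mod_cast hmin
  set D := ‖ee ((c : ℝ) / q) - 1‖ with hDd
  have hD0 : 0 < D := lt_of_lt_of_le (by positivity) hD
  have h1 : (ee ((c : ℝ) / q) - 1) * ∑ y ∈ range X, ee (φ y) = ee (φ X) - ee (φ 0) := by
    induction X with
    | zero => simp
    | succ X ih =>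
      rw [Finset.sum_range_succ, mul_add, ih]
      have h2 : ee (φ (X + 1)) = ee ((c : ℝ) / q) * ee (φ X) := by
        rw [← ee_add, ← hφ X]
        congr 1
        ring
      rw [h2]
      ring
  have h2 : ‖ee (φ X) - ee (φ 0)‖ ≤ 2 := by
    calc ‖ee (φ X) - ee (φ 0)‖ ≤ ‖ee (φ X)‖ + ‖ee (φ 0)‖ := norm_sub_le _ _
      _ = 2 := by rw [norm_ee, norm_ee]; norm_num
  rw [← h1, norm_mul, ← hDd] at h2
  have h3 : ‖∑ y ∈ range X, ee (φ y)‖ ≤ 2 / D := by
    rw [le_div_iff₀ hD0]; linarith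
  refine h3.trans ?_
  have h4 : 2 / D ≤ 2 / (4 * ((min m (q - m) : ℕ) : ℝ) / q) :=
    div_le_div_of_nonneg_left (by norm_num) (by positivity) hD
  refine h4.trans ?_
  have h5 : 2 / (4 * ((min m (q - m) : ℕ) : ℝ) / q) = q / 2 * (1 / ((min m (q - m) : ℕ) : ℝ)) := by
    field_simp
    ring
  rw [h5]
  apply mul_le_mul_of_nonneg_left _ (by positivity)
  have hm1 : (0 : ℝ) < m := by exact_mod_cast hm0
  have hm2 : (0 : ℝ) < ((q - m : ℕ) : ℝ) := by exact_mod_cast (by omega : 0 < q - m)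
  rcases le_total m (q - m) with h | h
  · rw [min_eq_left h]
    have : 0 ≤ 1 / ((q - m : ℕ) : ℝ) := by positivity
    linarith
  · rw [min_eq_right h]
    have : 0 ≤ 1 / (m : ℝ) := by positivity
    linarith

/-- The sum over a complete residue system. -/
theorem res_sum (q : ℕ) (hq : 0 < q) :
    ∑ m ∈ Ico 1 q, ((q : ℝ) / 2 * (1 / m + 1 / ((q - m : ℕ) : ℝ))) ≤ q * (1 + Real.log q) := by
  have h1 : ∑ m ∈ Ico 1 q, (1 / ((q - m : ℕ) : ℝ)) = ∑ m ∈ Ico 1 q, (1 / (m : ℝ)) := by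
    apply Finset.sum_nbij' (fun m => q - m) (fun m => q - m)
    · intro m hm; rw [mem_Ico] at hm ⊢; omega
    · intro m hm; rw [mem_Ico] at hm ⊢; omega
    · intro m hm; rw [mem_Ico] at hm; omega
    · intro m hm; rw [mem_Ico] at hm; omega
    · intro m _; rfl
  have h2 : ∑ m ∈ Ico 1 q, (1 / (m : ℝ)) ≤ 1 + Real.log q := by
    have h3 := harmonic_le_one_add_log q
    have h4 : ∑ m ∈ Ico 1 q, (1 / (m : ℝ)) ≤ ((harmonic q : ℚ) : ℝ) := by
      rw [harmonic_eq_sum_Icc]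
      push_cast
      simp_rw [one_div]
      apply Finset.sum_le_sum_of_subset_of_nonneg
      · intro m hm; rw [mem_Ico] at hm; rw [mem_Icc]; omega
      · intro m _ _; positivity
    linarith
  rw [← Finset.mul_sum, Finset.sum_add_distrib, h1]
  have hq' : (0 : ℝ) ≤ q := Nat.cast_nonneg q
  nlinarith

/-- The bound of the shift `k`, as a function of its residue. -/
noncomputable def gb (q X : ℕ) (c : ℤ) (r : ℕ) : ℝ :=
  if r = 0 then (X : ℝ) else
    (q : ℝ) / 2 * (1 / (((c * r) % (q : ℤ)).toNat : ℝ) + 1 / ((q - ((c * r) % (q : ℤ)).toNat : ℕ) : ℝ))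

theorem gb_nonneg (q X : ℕ) (c : ℤ) (r : ℕ) : 0 ≤ gb q X c r := by
  unfold gb
  split_ifs
  · positivity
  · positivity

theorem mul_res_ne (q : ℕ) (hq : 0 < q) (c : ℤ) (hc : IsCoprime c (q : ℤ)) (r : ℕ) (hr0 : r ≠ 0)
    (hr : r < q) : 0 < ((c * r) % (q : ℤ)).toNat ∧ ((c * r) % (q : ℤ)).toNat < q ∧
      (c * r) % (q : ℤ) = ((c * r) % (q : ℤ)).toNat := by
  have hq' : (0 : ℤ) < q := by exact_mod_cast hq
  have h0 : 0 ≤ (c * r) % (q : ℤ) := Int.emod_nonneg _ hq'.ne'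
  have h1 : (c * r) % (q : ℤ) < q := Int.emod_lt_of_pos _ hq'
  have h2 : (c * r) % (q : ℤ) ≠ 0 := by
    intro h
    have h3 : (q : ℤ) ∣ c * r := Int.dvd_of_emod_eq_zero h
    have h4 : (q : ℤ) ∣ r := hc.symm.dvd_of_dvd_mul_left h3
    have h5 : q ∣ r := by exact_mod_cast h4
    have := Nat.le_of_dvd (by omega) h5
    omega
  omega

theorem gb_sum (q X : ℕ) (hq : 0 < q) (c : ℤ) (hc : IsCoprime c (q : ℤ)) :
    ∑ r ∈ range q, gb q X c r ≤ X + q * (1 + Real.log q) := by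
  have h1 : range q = insert 0 (Ico 1 q) := by
    ext x; simp only [mem_range, mem_insert, mem_Ico]; omega
  rw [h1, Finset.sum_insert (by simp)]
  have h2 : gb q X c 0 = X := by simp [gb]
  rw [h2]
  have h3 : ∑ r ∈ Ico 1 q, gb q X c r =
      ∑ m ∈ Ico 1 q, ((q : ℝ) / 2 * (1 / m + 1 / ((q - m : ℕ) : ℝ))) := by
    have hinj : Set.InjOn (fun r : ℕ => ((c * r) % (q : ℤ)).toNat) (Ico 1 q : Finset ℕ) := by
      intro a ha b hb hab
      rw [Finset.mem_coe, mem_Ico] at ha hb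
      simp only at hab
      obtain ⟨-, -, ea⟩ := mul_res_ne q hq c hc a (by omega) ha.2
      obtain ⟨-, -, eb⟩ := mul_res_ne q hq c hc b (by omega) hb.2
      have h4 : (c * a) % (q : ℤ) = (c * b) % (q : ℤ) := by rw [ea, eb, hab]
      have h5 : (q : ℤ) ∣ c * b - c * a := Int.modEq_iff_dvd.mp h4
      have h6 : (q : ℤ) ∣ (b : ℤ) - a := by
        apply hc.symm.dvd_of_dvd_mul_left
        rwa [mul_sub]
      have h7 : (a : ℤ) % q = (b : ℤ) % q := Int.modEq_iff_dvd.mpr h6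
      have h8 : a % q = b % q := by exact_mod_cast h7
      rwa [Nat.mod_eq_of_lt ha.2, Nat.mod_eq_of_lt hb.2] at h8
    have himg : (Ico 1 q).image (fun r : ℕ => ((c * r) % (q : ℤ)).toNat) = Ico 1 q := by
      apply Finset.eq_of_subset_of_card_le
      · intro m hm
        rw [Finset.mem_image] at hm
        obtain ⟨r, hr, rfl⟩ := hm
        rw [mem_Ico] at hr
        obtain ⟨h4, h5, -⟩ := mul_res_ne q hq c hc r (by omega) hr.2
        rw [mem_Ico]; omega
      · rw [Finset.card_image_of_injOn hinj]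
    conv_rhs => rw [← himg]
    rw [Finset.sum_image hinj]
    apply Finset.sum_congr rfl
    intro r hr
    rw [mem_Ico] at hr
    unfold gb
    rw [if_neg (by omega)]
  rw [h3]
  have := res_sum q hq
  linarith

/-- Sum over an initial segment. -/
theorem gb_sum_range (q X : ℕ) (hq : 0 < q) (c : ℤ) (hc : IsCoprime c (q : ℤ)) :
    ∑ k ∈ Ico 1 X, gb q X c (k % q) ≤ ((X : ℝ) / q + 1) * (X + q * (1 + Real.log q)) := by
  have hq' : (0 : ℝ) < q := by exact_mod_cast hq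
  have hlogq : 0 ≤ Real.log q := Real.log_natCast_nonneg q
  have key : ∀ B : ℕ, ∑ k ∈ range (q * B), gb q X c (k % q) = B * ∑ r ∈ range q, gb q X c r := by
    intro B
    induction B with
    | zero => simp
    | succ B ih =>
      rw [Nat.mul_succ, Finset.sum_range_add, ih]
      have : ∀ r ∈ range q, gb q X c ((q * B + r) % q) = gb q X c r := by
        intro r hr
        rw [mem_range] at hr
        rw [Nat.mul_add_mod, Nat.mod_eq_of_lt hr]
      rw [Finset.sum_congr rfl this]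
      push_cast
      ring
  have h1 : ∑ k ∈ Ico 1 X, gb q X c (k % q) ≤ ∑ k ∈ range (q * (X / q + 1)), gb q X c (k % q) := by
    apply Finset.sum_le_sum_of_subset_of_nonneg
    · intro k hk
      rw [mem_Ico] at hk
      rw [mem_range]
      have := Nat.lt_mul_div_succ X hq
      omega
    · intro k _ _; exact gb_nonneg _ _ _ _
  rw [key] at h1
  refine h1.trans ?_
  have h2 := gb_sum q X hq c hc
  have h3 : ((X / q + 1 : ℕ) : ℝ) ≤ (X : ℝ) / q + 1 := by
    push_cast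
    have : ((X / q : ℕ) : ℝ) ≤ (X : ℝ) / q := Nat.cast_div_le
    linarith
  have h4 : 0 ≤ ∑ r ∈ range q, gb q X c r := Finset.sum_nonneg fun r _ => gb_nonneg _ _ _ _
  exact mul_le_mul h3 h2 h4 (by positivity)

/-- **Quadratic phases.** -/
theorem quad_bound (q : ℕ) (hq : 0 < q) (c : ℤ) (hc : IsCoprime c (q : ℤ)) (φ : ℕ → ℝ)
    (hφ : Ph 1 ((c : ℝ) / q) φ) (X X' : ℕ) (hX : X' ≤ X) :
    ‖∑ y ∈ range X', ee (φ y)‖ ^ 2 ≤
      X + 2 * (((X : ℝ) / q + 1) * (X + q * (1 + Real.log q))) := by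
  have h1 := sq_bound (fun y => ee (φ y)) (fun y => norm_ee _) X'
  refine h1.trans ?_
  have hXX : (X' : ℝ) ≤ X := by exact_mod_cast hX
  have h2 : ∀ k ∈ Ico 1 X', ‖∑ y ∈ range (X' - k), ee (φ (y + k)) * (starRingEnd ℂ) (ee (φ y))‖ ≤
      gb q X c (k % q) := by
    intro k hk
    rw [mem_Ico] at hk
    have e1 : ∀ y, ee (φ (y + k)) * (starRingEnd ℂ) (ee (φ y)) = ee (φ (y + k) - φ y) :=
      fun y => (ee_sub _ _).symm
    simp_rw [e1]
    unfold gb
    split_ifs with hk0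
    · refine (norm_sum_le _ _).trans ?_
      simp only [norm_ee, Finset.sum_const, card_range, nsmul_eq_mul, mul_one]
      have : ((X' - k : ℕ) : ℝ) ≤ X := by exact_mod_cast (by omega : X' - k ≤ X)
      linarith
    · obtain ⟨h3, h4, h5⟩ := mul_res_ne q hq c hc (k % q) hk0 (Nat.mod_lt _ hq)
      have h6 : (c * k) % (q : ℤ) = (c * ((k % q : ℕ) : ℤ)) % (q : ℤ) := by
        push_cast
        rw [Int.mul_emod, Int.mul_emod c ((k : ℤ) % q), Int.emod_emod]
      rw [← h6] at h5 h3 h4 ⊢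
      have h7 := hφ k
      have h8 : (c : ℝ) / q * k = ((c * k : ℤ) : ℝ) / q := by push_cast; ring
      rw [h8] at h7
      exact lin_res q hq (c * k) _ h5 h3 _ h7 (X' - k)
  have h3 := Finset.sum_le_sum h2
  have h4 : ∑ k ∈ Ico 1 X', gb q X c (k % q) ≤ ∑ k ∈ Ico 1 X, gb q X c (k % q) := by
    apply Finset.sum_le_sum_of_subset_of_nonneg
    · intro k hk; rw [mem_Ico] at hk ⊢; omega
    · intro k _ _; exact gb_nonneg _ _ _ _
  have h5 := gb_sum_range q X hq c hc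
  linarith

/-- **Weyl bound with averaging.** -/
theorem weyl_avg (δ : ℝ) (hδ : 0 < δ) (hδ1 : δ ≤ 1) : ∃ (κ : ℝ) (l0 : ℕ), 0 < κ ∧
    ∀ l : ℕ, l.Prime → l0 ≤ l → ∀ e : ℕ, 1 ≤ e → ∀ X : ℕ,
    ((l ^ e : ℕ) : ℝ) * (1 + Real.log ((l ^ e : ℕ) : ℝ)) ≤ κ * (X : ℝ) ^ 2 →
    ∀ d : ℕ, 1 ≤ d → d ≤ 2 → ∀ (c : ℤ), ¬ (l : ℤ) ∣ c → ∀ (φ : ℕ → ℝ),
      Ph d ((c : ℝ) / ((l ^ e : ℕ) : ℝ)) φ → ‖∑ y ∈ range X, ee (φ y)‖ ≤ δ * X := by
  -- b : bound in degree two
  set b : ℝ := δ ^ 2 / 8 with hb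
  have hb0 : 0 < b := by positivity
  set κ1 : ℝ := b ^ 2 / 20 with hκ1
  have hκ10 : 0 < κ1 := by positivity
  obtain ⟨l0, hl0⟩ := exists_nat_gt (1 / κ1)
  refine ⟨κ1 ^ 2, l0, by positivity, ?_⟩
  intro l hl hll e he X hcond d hd1 hd2 c hc φ hφ
  set q : ℕ := l ^ e with hq
  have hqpos : 0 < q := pow_pos hl.pos e
  have hq' : (0 : ℝ) < q := by exact_mod_cast hqpos
  have hlq : l ≤ q := Nat.le_self_pow (by omega) l
  have hlr : (0 : ℝ) < l := by exact_mod_cast hl.pos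
  have hl1 : 1 < κ1 * l := by
    have : 1 / κ1 < l := lt_of_lt_of_le hl0 (by exact_mod_cast hll)
    rw [div_lt_iff₀ hκ10] at this
    linarith
  have hlinv : 1 / (l : ℝ) ≤ κ1 := by
    rw [div_le_iff₀ hlr]; exact hl1.le
  have hqinv : 1 / (q : ℝ) ≤ κ1 := by
    refine le_trans ?_ hlinv
    exact one_div_le_one_div_of_le hlr (by exact_mod_cast hlq)
  have hq1 : (1 : ℝ) ≤ q := by exact_mod_cast hqpos
  have hL : 1 ≤ 1 + Real.log q := by
    have := Real.log_nonneg hq1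
    linarith
  have hLq : 1 + Real.log q ≤ q := by
    have := Real.log_le_sub_one_of_pos hq'
    linarith
  set Lq := 1 + Real.log (q : ℝ) with hLqd
  have hX0 : (0 : ℝ) ≤ X := Nat.cast_nonneg X
  -- Lq ≤ κ1 X
  have hLX : Lq ≤ κ1 * X := by
    have h1 : Lq ^ 2 ≤ (κ1 * X) ^ 2 := by
      calc Lq ^ 2 = Lq * Lq := by ring
        _ ≤ q * Lq := mul_le_mul_of_nonneg_right hLq (by linarith)
        _ ≤ κ1 ^ 2 * (X : ℝ) ^ 2 := hcond
        _ = (κ1 * X) ^ 2 := by ring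
    exact le_of_sq_le_sq h1 (by positivity)
  have hXpos : 0 < (X : ℝ) := by
    by_contra h
    have : (X : ℝ) = 0 := le_antisymm (not_lt.mp h) hX0
    rw [this] at hLX
    linarith
  have hκ1le : κ1 ≤ 1 := by
    rw [hκ1, hb]
    have : δ ^ 2 ≤ 1 := by nlinarith
    nlinarith [sq_nonneg (δ ^ 2)]
  have hcop : ∀ c : ℤ, ¬ (l : ℤ) ∣ c → IsCoprime c (q : ℤ) := by
    intro c hc
    have hlp := Nat.prime_iff_prime_int.mp hl
    rw [hq]
    push_cast
    exact (IsCoprime.pow_left ((Prime.coprime_iff_not_dvd hlp).mpr hc)).symm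
  have hq2 : (q : ℝ) * Lq ≤ κ1 * (X : ℝ) ^ 2 := by
    refine hcond.trans ?_
    have : κ1 ^ 2 ≤ κ1 := by nlinarith
    exact mul_le_mul_of_nonneg_right this (by positivity)
  have hXL : (X : ℝ) * Lq ≤ κ1 * (X : ℝ) ^ 2 := by nlinarith
  have hX1 : (X : ℝ) ≤ κ1 * (X : ℝ) ^ 2 := by nlinarith
  have hXq : (X : ℝ) / q * X ≤ κ1 * (X : ℝ) ^ 2 := by
    have : (X : ℝ) / q * X = 1 / q * X ^ 2 := by ring
    rw [this]
    exact mul_le_mul_of_nonneg_right hqinv (by positivity)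
  have hXl : (X : ℝ) / l * X ≤ κ1 * (X : ℝ) ^ 2 := by
    have : (X : ℝ) / l * X = 1 / l * X ^ 2 := by ring
    rw [this]
    exact mul_le_mul_of_nonneg_right hlinv (by positivity)
  -- degree two, all X' ≤ X
  have hquad : ∀ c : ℤ, ¬ (l : ℤ) ∣ c → ∀ φ : ℕ → ℝ, Ph 1 ((c : ℝ) / (q : ℝ)) φ → ∀ X' ≤ X,
      ‖∑ y ∈ range X', ee (φ y)‖ ≤ b * X := by
    intro c hc φ hφ X' hX'
    have h1 := quad_bound q hqpos c (hcop c hc) φ hφ X X' hX'
    have h2 : ((X : ℝ) / q + 1) * (X + q * (1 + Real.log q)) =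
        X / q * X + X * Lq + X + q * Lq := by
      rw [← hLqd]
      field_simp
      ring
    rw [h2] at h1
    have h3 : ‖∑ y ∈ range X', ee (φ y)‖ ^ 2 ≤ (b * X) ^ 2 := by
      refine h1.trans ?_
      have h4 : (b * (X : ℝ)) ^ 2 = 20 * κ1 * (X : ℝ) ^ 2 := by rw [hκ1]; ring
      rw [h4]
      linarith
    exact abs_le_of_sq_le_sq' h3 (by positivity) |>.2
  have hd : d = 1 ∨ d = 2 := by omega
  rcases hd with rfl | rfl
  · refine (hquad c hc φ hφ X le_rfl).trans ?_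
    apply mul_le_mul_of_nonneg_right _ hX0
    rw [hb]; nlinarith
  · -- degree three
    have h1 := sq_bound (fun y => ee (φ y)) (fun y => norm_ee _) X
    have h2 : ∀ k ∈ Ico 1 X, ‖∑ y ∈ range (X - k), ee (φ (y + k)) * (starRingEnd ℂ) (ee (φ y))‖ ≤
        b * X + (if l ∣ k then (X : ℝ) else 0) := by
      intro k hk
      rw [mem_Ico] at hk
      have e1 : ∀ y, ee (φ (y + k)) * (starRingEnd ℂ) (ee (φ y)) = ee (φ (y + k) - φ y) :=
        fun y => (ee_sub _ _).symm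
      simp_rw [e1]
      by_cases hk' : l ∣ k
      · rw [if_pos hk']
        refine (norm_sum_le _ _).trans ?_
        simp only [norm_ee, Finset.sum_const, card_range, nsmul_eq_mul, mul_one]
        have : ((X - k : ℕ) : ℝ) ≤ X := by exact_mod_cast (by omega : X - k ≤ X)
        have : 0 ≤ b * (X : ℝ) := by positivity
        linarith
      · rw [if_neg hk', add_zero]
        have h3 := hφ k
        have h4 : (c : ℝ) / (q : ℝ) * k = ((c * k : ℤ) : ℝ) / (q : ℝ) := by push_cast; ring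
        rw [h4] at h3
        refine hquad (c * k) ?_ _ h3 (X - k) (by omega)
        intro hh
        rcases (Nat.prime_iff_prime_int.mp hl).dvd_or_dvd hh with h5 | h5
        · exact hc h5
        · exact hk' (by exact_mod_cast h5)
    have h3 := Finset.sum_le_sum h2
    rw [Finset.sum_add_distrib, ← Finset.sum_filter, Finset.sum_const, Finset.sum_const,
      nsmul_eq_mul, nsmul_eq_mul, Nat.card_Ico] at h3
    have h4 : (#{k ∈ Ico 1 X | l ∣ k} : ℝ) ≤ (X : ℝ) / l := by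
      have h5 : #{k ∈ Ico 1 X | l ∣ k} ≤ X / l := by
        have h6 : {k ∈ Ico 1 X | l ∣ k} ⊆ {k ∈ Ioc 0 X | l ∣ k} := by
          intro k hk
          simp only [mem_filter, mem_Ico, mem_Ioc] at hk ⊢
          exact ⟨⟨by omega, by omega⟩, hk.2⟩
        refine (Finset.card_le_card h6).trans ?_
        rw [Nat.Ioc_filter_dvd_card_eq_div]
      calc (#{k ∈ Ico 1 X | l ∣ k} : ℝ) ≤ ((X / l : ℕ) : ℝ) := by exact_mod_cast h5
        _ ≤ (X : ℝ) / l := Nat.cast_div_le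
    have h7 : ((X - 1 : ℕ) : ℝ) ≤ X := by exact_mod_cast (by omega : X - 1 ≤ X)
    have h8 : ((X - 1 : ℕ) : ℝ) * (b * X) ≤ X * (b * X) :=
      mul_le_mul_of_nonneg_right h7 (by positivity)
    have h9 : (#{k ∈ Ico 1 X | l ∣ k} : ℝ) * X ≤ (X : ℝ) / l * X :=
      mul_le_mul_of_nonneg_right h4 hX0
    have h10 : ‖∑ y ∈ range X, ee (φ y)‖ ^ 2 ≤ (δ * X) ^ 2 := by
      refine h1.trans ?_
      have h11 : (X : ℝ) + 2 * (X * (b * X) + κ1 * (X : ℝ) ^ 2) ≤ (3 * κ1 + 2 * b) * (X : ℝ) ^ 2 := by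
        nlinarith
      have h12 : (3 * κ1 + 2 * b) * (X : ℝ) ^ 2 ≤ δ ^ 2 * (X : ℝ) ^ 2 := by
        apply mul_le_mul_of_nonneg_right _ (by positivity)
        have hb1 : b ≤ 1 := by rw [hb]; nlinarith
        have hκb : κ1 ≤ b := by rw [hκ1]; nlinarith
        have : b = δ ^ 2 / 8 := hb
        nlinarith
      have h13 : (δ * (X : ℝ)) ^ 2 = δ ^ 2 * (X : ℝ) ^ 2 := by ring
      rw [h13]
      linarith
    exact abs_le_of_sq_le_sq' h10 (by positivity) |>.2

end Pool.Agent.H15.Rud
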